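import Pool.Agent.Helper81.AD2.Goals

/-! BR, LIE, FIX, LBW, SWAP, FTOP. -/

namespace Pool.Agent.Helper81.AD2

open Pool.Agent.Helper88.AD

variable {d : ℕ}

/-- A linear map which sends generators into a submodule sends the span into it. -/
theorem span_le_of {M M' : Type*} [AddCommGroup M] [Module ℚ M] [AddCommGroup M'] [Module ℚ M']
    {s : Set M} {N : Submodule ℚ M'} (f : M →ₗ[ℚ] M') (h : ∀ x ∈ s, f x ∈ N) {x : M}
    (hx : x ∈ Submodule.span ℚ s) : f x ∈ N := by
  have : Submodule.span ℚ s ≤ N.comap f := Submodule.span_le.2 fun y hy => h y hy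
  exact this hx

theorem s_BR : S_BR := by
  intro d e l
  induction l using List.reverseRecOn generalizing e with
  | nil => intro h; exact absurd rfl h
  | append_singleton l p ih =>
    intro _
    by_cases hne : l = []
    · subst hne
      exact Submodule.subset_span ⟨[p], List.Perm.refl _, rfl⟩
    · have h1 : lb (l ++ [p]) = br (lb l) (wd [p]) := by
        rw [lb_append hne, ad_cons, ad_nil]
      rw [h1, br_br]
      apply Submodule.sub_mem
      · refine span_le_of (brL (wd [p])) ?_ (ih e hne)
        rintro x ⟨m, hm, rfl⟩
        refine Submodule.subset_span ⟨m ++ [p], hm.append_right _, ?_⟩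
        rw [brL_apply, ad_snoc]
      · have h2 := ih (br e (wd [p])) hne
        refine span_le_of (LinearMap.id) ?_ h2
        rintro x ⟨m, hm, rfl⟩
        refine Submodule.subset_span ⟨p :: m, ?_, rfl⟩
        exact (List.Perm.cons p hm).trans (List.perm_append_singleton p _).symm

theorem s_LIE : S_LIE := by
  intro d l l' hl hl'
  refine span_le_of LinearMap.id ?_ (s_BR d (lb l) l' hl')
  rintro x ⟨m, hm, rfl⟩
  refine Submodule.subset_span ⟨l ++ m, hm.append_left l, ?_⟩
  rw [LinearMap.id_apply, lb_append hl]

theorem s_FIX : S_FIX := by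
  intro d l a ha
  obtain ⟨l1, l2, rfl⟩ := List.append_of_mem ha
  by_cases hne : l1 = []
  · subst hne
    exact Submodule.subset_span ⟨l2, List.Perm.refl _, rfl⟩
  · have h1 : lb (l1 ++ a :: l2) = -ad (br (wd [a]) (lb l1)) l2 := by
      rw [lb_append hne, ad_cons, br_neg, ad_neg]
    rw [h1]
    apply Submodule.neg_mem
    rw [← adL_apply]
    refine span_le_of (adL l2) ?_ (s_BR d (wd [a]) _ hne)
    rintro x ⟨m, hm, rfl⟩
    refine Submodule.subset_span ⟨m ++ l2, ?_, ?_⟩
    · refine List.Perm.trans (List.Perm.cons a (hm.append_right l2)) ?_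
      exact List.perm_middle.symm
    · rw [adL_apply, lb_cons, ad_append]

theorem s_LBW : S_LBW := by
  intro d l
  induction l using List.reverseRecOn with
  | nil => exact Submodule.zero_mem _
  | append_singleton l p ih =>
    by_cases hne : l = []
    · subst hne
      exact Submodule.subset_span ⟨[p], List.Perm.refl _, rfl⟩
    · have h1 : lb (l ++ [p]) = br (lb l) (wd [p]) := by
        rw [lb_append hne, ad_cons, ad_nil]
      rw [h1]
      refine span_le_of (brL (wd [p])) ?_ ih
      rintro x ⟨m, hm, rfl⟩
      rw [brL_apply]
      unfold br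
      apply Submodule.sub_mem
      · exact Submodule.subset_span ⟨m ++ [p], hm.append_right _, (wd_append _ _).symm⟩
      · refine Submodule.subset_span ⟨p :: m, ?_, (wd_cons _ _).symm⟩
        exact (List.Perm.cons p hm).trans (List.perm_append_singleton p _).symm

/-- `x ↦ ev (c * x * c')`. -/
noncomputable def evc (c c' : A d) : A d →ₗ[ℚ] V d :=
  ev ∘ₗ LinearMap.mulRight ℚ c' ∘ₗ LinearMap.mulLeft ℚ c

theorem evc_apply (c c' x : A d) : evc c c' x = ev (c * x * c') := rfl

theorem diff_eq (W W' : List (List (Pt d))) (P Q : List (Pt d)) :
    ev (val (W ++ P :: Q :: W')) - ev (val (W ++ Q :: P :: W')) =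
      ev (val W * br (lb P) (lb Q) * val W') := by
  rw [← map_sub]
  congr 1
  rw [val_append, val_append, val_cons, val_cons, val_cons, val_cons]
  unfold br
  noncomm_ring

theorem s_SWAP : S_SWAP := by
  intro d W W' P Q hW hPQ
  rw [diff_eq, ← evc_apply]
  have hP : Pur P := hW.1 P (by simp)
  have hQ : Pur Q := hW.1 Q (by simp)
  refine span_le_of (evc (val W) (val W')) ?_ (s_LIE d P Q hP.1 hQ.1)
  rintro x ⟨m, hm, rfl⟩
  rw [evc_apply]
  have h1 : val W * lb m * val W' = val (W ++ m :: W') := by
    rw [val_append, val_cons, mul_assoc]
  rw [h1]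
  apply mem_F
  · constructor
    · intro l hl
      rw [List.mem_append, List.mem_cons] at hl
      rcases hl with hl | rfl | hl
      · exact hW.1 l (by simp [hl])
      · constructor
        · rintro rfl
          have h0 := hm.length_eq
          rw [List.length_nil, List.length_append] at h0
          exact hP.1 (List.eq_nil_of_length_eq_zero (by omega))
        · intro p hp q hq
          have hp' := hm.mem_iff.1 hp
          have hq' := hm.mem_iff.1 hq
          rw [List.mem_append] at hp' hq'
          rcases hp' with hp' | hp' <;> rcases hq' with hq' | hq'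
          · exact hP.2 p hp' q hq'
          · exact hPQ p hp' q hq'
          · exact (hPQ q hq' p hp').symm
          · exact hQ.2 p hp' q hq'
      · exact hW.1 l (by simp [hl])
    · refine (isD_perm ?_).1 hW.2
      rw [List.flatten_append, List.flatten_append, List.flatten_cons, List.flatten_cons,
        List.flatten_cons]
      refine List.Perm.append_left _ ?_
      rw [← List.append_assoc]
      exact (hm.symm).append_right _
  · simp; omega

theorem s_FTOP : S_FTOP := by
  intro d
  constructor
  · rw [eq_top_iff, ← span_el, Submodule.span_le]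
    rintro _ ⟨w, rfl⟩
    show el w ∈ F d (2 * d)
    by_cases hw : IsD w
    · rw [← ev_wd, ← val_singles]
      apply mem_F
      · constructor
        · intro l hl
          rw [List.mem_map] at hl
          obtain ⟨p, _, rfl⟩ := hl
          exact pur_single p
        · have h0 : ∀ v : List (Pt d), (v.map fun p => [p]).flatten = v := by
            intro v
            induction v with
            | nil => rfl
            | cons p v ih => rw [List.map_cons, List.flatten_cons, ih]; rfl
          rw [h0]; exact hw
      · rw [List.length_map, isD_length hw]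
    · rw [el_of_not hw]; exact Submodule.zero_mem _
  · intro hd
    rw [eq_bot_iff]
    unfold F
    rw [Submodule.span_le]
    rintro v ⟨W, h1, h2, rfl⟩
    exfalso
    have : W = [] := List.eq_nil_of_length_eq_zero (Nat.le_zero.1 h2)
    subst this
    have := h1.2 (⟨0, hd⟩, true)
    simp at this

end Pool.Agent.Helper81.AD2
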