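import Pool.Agent.Helper81.AD2.Alg

/-! MIX, SUB, DN2 (from MIXED), DN1. -/

namespace Pool.Agent.Helper81.AD2

open Pool.Agent.Helper88.AD

variable {d : ℕ}

/-- First head of a list. -/
theorem first_head (m : List (Pt d)) (h : ∃ x, (x, false) ∈ m) :
    ∃ l1 x l2, m = l1 ++ (x, false) :: l2 ∧ ∀ p ∈ l1, p.2 = true := by
  induction m with
  | nil => obtain ⟨x, hx⟩ := h; simp at hx
  | cons p m ih =>
    rcases p with ⟨i, b⟩
    cases b with
    | false => exact ⟨[], i, m, rfl, by simp⟩
    | true =>
      obtain ⟨x, hx⟩ := h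
      have hx' : (x, false) ∈ m := by
        rcases List.mem_cons.1 hx with h0 | h0
        · simp at h0
        · exact h0
      obtain ⟨l1, y, l2, rfl, h2⟩ := ih ⟨x, hx'⟩
      refine ⟨(i, true) :: l1, y, l2, rfl, ?_⟩
      intro p hp
      rcases List.mem_cons.1 hp with rfl | hp
      · rfl
      · exact h2 p hp

theorem s_MIX : S_MIX := by
  intro d z hy hx
  obtain ⟨y, hy⟩ := hy
  refine span_le_of LinearMap.id ?_ (s_FIX d z (y, true) hy)
  rintro v ⟨m, hm, rfl⟩
  rw [LinearMap.id_apply]
  have hx' : ∃ x, (x, false) ∈ m := by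
    obtain ⟨x, hx⟩ := hx
    refine ⟨x, ?_⟩
    rcases List.mem_cons.1 (hm.mem_iff.2 hx) with h0 | h0
    · simp at h0
    · exact h0
  obtain ⟨l1, b, l2, rfl, h2⟩ := first_head m hx'
  have h1 : lb ((y, true) :: (l1 ++ (b, false) :: l2)) =
      -adL l2 (br (wd [(b, false)]) (lb ((y, true) :: l1))) := by
    rw [adL_apply, ← List.cons_append, lb_append (by simp), ad_cons, br_neg, ad_neg]
  rw [h1]
  apply Submodule.neg_mem
  refine span_le_of (adL l2) ?_ (s_BR d (wd [(b, false)]) ((y, true) :: l1) (by simp))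
  rintro x ⟨s, hs, rfl⟩
  have hs0 : s ≠ [] := by
    rintro rfl
    have := hs.length_eq
    simp at this
  obtain ⟨c, s, rfl⟩ := List.exists_cons_of_ne_nil hs0
  have hc : c.2 = true := by
    have : c ∈ (y, true) :: l1 := hs.mem_iff.1 List.mem_cons_self
    rcases List.mem_cons.1 this with rfl | h0
    · rfl
    · exact h2 c h0
  rcases c with ⟨c, e⟩
  simp only at hc
  subst hc
  refine Submodule.subset_span ⟨b, c, s ++ l2, ?_, ?_⟩
  · have h3 : ((b, false) :: (c, true) :: (s ++ l2)).Perm
        ((b, false) :: ((y, true) :: l1 ++ l2)) :=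
      List.Perm.cons _ (by rw [← List.cons_append]; exact hs.append_right l2)
    refine h3.trans (List.Perm.trans ?_ hm)
    rw [← List.cons_append]
    exact List.perm_middle.symm
  · rw [adL_apply, ad_cons, ad_append]

/-- Substitution in one bracket. -/
theorem sub_lb (l1 l2 : List (Pt d)) (a b a' b' : Pt d) (h1 : a ∉ l1) (h2 : a ∉ l2)
    (hab : ([a', b'] : List (Pt d)).Perm [b, a]) :
    sb a (br (wd [a']) (wd [b'])) (lb (l1 ++ a :: l2)) ∈
      Submodule.span ℚ {x | ∃ m : List (Pt d), m.Perm (b :: (l1 ++ a :: l2)) ∧ x = lb m} := by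
  by_cases h0 : l1 = []
  · subst h0
    rw [List.nil_append, lb_cons, sb_ad h2, sb_self]
    refine Submodule.subset_span ⟨a' :: b' :: l2, ?_, rfl⟩
    have := hab.append_right l2
    simpa using this
  · have h3 : sb a (br (wd [a']) (wd [b'])) (lb (l1 ++ a :: l2)) =
        adL l2 (br (lb l1) (lb [a', b'])) := by
      rw [lb_append h0, ad_cons, sb_ad h2, sb_br, sb_self, sb_lb h1, adL_apply]
      rfl
    rw [h3]
    refine span_le_of (adL l2) ?_ (s_LIE d l1 [a', b'] h0 (by simp))
    rintro x ⟨m, hm, rfl⟩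
    have hm0 : m ≠ [] := by
      rintro rfl
      have := hm.length_eq
      simp at this
    refine Submodule.subset_span ⟨m ++ l2, ?_, ?_⟩
    · refine (hm.append_right l2).trans ?_
      rw [List.append_assoc]
      refine ((hab.append_right l2).append_left l1).trans ?_
      show (l1 ++ b :: (a :: l2)).Perm (b :: (l1 ++ a :: l2))
      exact List.perm_middle
    · rw [adL_apply, lb_append hm0]

theorem sub_val (W : List (List (Pt d))) (a b a' b' : Pt d) (hW : ∀ l ∈ W, Pur l)
    (ha : W.flatten.count a = 1) (hb : b.2 = a.2) (hab : ([a', b'] : List (Pt d)).Perm [b, a]) :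
    sb a (br (wd [a']) (wd [b'])) (val W) ∈ Submodule.span ℚ {v | ∃ W' : List (List (Pt d)),
    (∀ l ∈ W', Pur l) ∧ W'.length = W.length ∧ W'.flatten.Perm (b :: W.flatten) ∧ v = val W'} := by
  have hmem : a ∈ W.flatten := List.count_pos_iff.1 (by omega)
  obtain ⟨l, hl, hal⟩ := List.mem_flatten.1 hmem
  obtain ⟨W1, W2, rfl⟩ := List.append_of_mem hl
  obtain ⟨l1, l2, rfl⟩ := List.append_of_mem hal
  have hc : W1.flatten.count a = 0 ∧ l1.count a = 0 ∧ l2.count a = 0 ∧ W2.flatten.count a = 0 := by
    have : (W1 ++ (l1 ++ a :: l2) :: W2).flatten.count a =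
        W1.flatten.count a + (l1.count a + (l2.count a + 1) + W2.flatten.count a) := by
      rw [List.flatten_append, List.flatten_cons, List.count_append, List.count_append,
        List.count_append, List.count_cons_self]
    omega
  have n1 : a ∉ W1.flatten := List.count_eq_zero.1 hc.1
  have n2 : a ∉ l1 := List.count_eq_zero.1 hc.2.1
  have n3 : a ∉ l2 := List.count_eq_zero.1 hc.2.2.1
  have n4 : a ∉ W2.flatten := List.count_eq_zero.1 hc.2.2.2
  have hv : sb a (br (wd [a']) (wd [b'])) (val (W1 ++ (l1 ++ a :: l2) :: W2)) =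
      (LinearMap.mulRight ℚ (val W2) ∘ₗ LinearMap.mulLeft ℚ (val W1))
        (sb a (br (wd [a']) (wd [b'])) (lb (l1 ++ a :: l2))) := by
    rw [val_append, val_cons, map_mul, map_mul, sb_val n1, sb_val n4]
    rw [LinearMap.comp_apply, LinearMap.mulLeft_apply, LinearMap.mulRight_apply, mul_assoc]
  rw [hv]
  refine span_le_of _ ?_ (sub_lb l1 l2 a b a' b' n2 n3 hab)
  rintro x ⟨m, hm, rfl⟩
  refine Submodule.subset_span ⟨W1 ++ m :: W2, ?_, ?_, ?_, ?_⟩
  · intro l' hl'
    rw [List.mem_append, List.mem_cons] at hl'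
    rcases hl' with hl' | rfl | hl'
    · exact hW l' (by simp [hl'])
    · have hP : Pur (l1 ++ a :: l2) := hW _ hl
      have key : ∀ p ∈ l', p.2 = a.2 := by
        intro p hp
        rcases List.mem_cons.1 (hm.mem_iff.1 hp) with rfl | h0
        · exact hb
        · exact hP.2 p h0 a hal
      refine ⟨?_, fun p hp q hq => (key p hp).trans (key q hq).symm⟩
      rintro rfl
      have := hm.length_eq
      simp at this
    · exact hW l' (by simp [hl'])
  · simp
  · rw [List.flatten_append, List.flatten_append, List.flatten_cons, List.flatten_cons]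
    refine List.Perm.trans ((hm.append_right W2.flatten).append_left W1.flatten) ?_
    exact List.perm_middle
  · rw [LinearMap.comp_apply, LinearMap.mulLeft_apply, LinearMap.mulRight_apply, val_append,
      val_cons, mul_assoc]

theorem s_SUB : S_SUB := by
  intro d W a b hW ha hb
  exact ⟨sub_val W a b a b hW ha hb (List.Perm.swap b a []),
    sub_val W a b b a hW ha hb (List.Perm.refl _)⟩

theorem s_DN2 (h : S_MIXED) : S_DN2 := by
  intro d n
  unfold DD
  rw [Submodule.span_le]
  rintro v ⟨W, W', P, Q, hW, hn, hP, hQ, hPQ, rfl⟩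
  show _ ∈ N2 d ⊔ F d n
  rw [diff_eq, ← evc_apply]
  have hP' : Pur P := hW.1 P (by simp)
  have hQ' : Pur Q := hW.1 Q (by simp)
  refine span_le_of (evc (val W) (val W')) ?_ (s_LIE d P Q hP'.1 hQ'.1)
  rintro x ⟨m, hm, rfl⟩
  rw [evc_apply]
  have hlen : (W ++ P :: Q :: W').length = W.length + W'.length + 2 := by simp; omega
  have h1 := h d W W' m (fun l hl => hW.1 l (by simp [hl])) (fun l hl => hW.1 l (by simp [hl]))
    (by
      rintro rfl
      have h0 := hm.length_eq
      rw [List.length_nil, List.length_append] at h0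
      exact hP'.1 (List.eq_nil_of_length_eq_zero (by omega)))
    (by
      refine (isD_perm ?_).1 hW.2
      rw [List.flatten_append, List.flatten_cons, List.flatten_cons, List.append_assoc]
      refine List.Perm.append_left _ ?_
      rw [← List.append_assoc]
      exact hm.symm.append_right _)
    (by
      rintro i ⟨h1, h2⟩
      have h1' := hm.mem_iff.1 h1
      have h2' := hm.mem_iff.1 h2
      rw [List.mem_append] at h1' h2'
      rcases h1' with h1' | h1'
      · rcases h2' with h2' | h2'
        · have := hP _ h2'; simp at this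
        · exact hPQ _ h1' _ h2' rfl
      · have := hQ _ h1'; simp at this)
  refine (sup_le_sup_left (F_mono d ?_) (N2 d)) h1
  omega

/-- Moving one head to the left across tails. -/
theorem move1 (u : List (Pt d)) (q : Pt d) (hq : q.2 = false) :
    ∀ (c w : List (Pt d)), (∀ p ∈ u, p.2 = true ∧ p.1 ≠ q.1) →
    el (c ++ u ++ q :: w) - el (c ++ q :: (u ++ w)) ∈ N1 d := by
  induction u with
  | nil =>
    intro c w _
    rw [List.append_nil, List.nil_append, sub_self]
    exact Submodule.zero_mem _
  | cons p u ih =>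
    intro c w hu
    have h1 := ih (c ++ [p]) w (fun x hx => hu x (List.mem_cons_of_mem _ hx))
    have hp := hu p List.mem_cons_self
    have h2 : el (c ++ p :: q :: (u ++ w)) - el (c ++ q :: p :: (u ++ w)) ∈ N1 d := by
      refine Submodule.subset_span ⟨c, u ++ w, p.1, q.1, true, hp.2, ?_⟩
      have e1 : p = (p.1, true) := by rw [← hp.1]
      have e2 : q = (q.1, !true) := by rw [Bool.not_true, ← hq]
      rw [← e1, ← e2]
    have h3 := Submodule.add_mem _ h1 h2
    have e3 : c ++ [p] ++ u ++ q :: w = c ++ p :: u ++ q :: w := by simp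
    have e4 : c ++ [p] ++ q :: (u ++ w) = c ++ p :: q :: (u ++ w) := by simp
    rw [e3, e4, sub_add_sub_cancel] at h3
    exact h3

theorem move2 (w : List (Pt d)) : ∀ (c u c' : List (Pt d)),
    (∀ p ∈ u, p.2 = true) → (∀ q ∈ w, q.2 = false) → (∀ p ∈ u, ∀ q ∈ w, p.1 ≠ q.1) →
    el (c ++ u ++ w ++ c') - el (c ++ w ++ u ++ c') ∈ N1 d := by
  induction w with
  | nil =>
    intro c u c' _ _ _
    rw [List.append_nil, List.append_nil, sub_self]
    exact Submodule.zero_mem _
  | cons q w ih =>
    intro c u c' hu hw huw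
    have h1 := move1 u q (hw q List.mem_cons_self) c (w ++ c')
      (fun p hp => ⟨hu p hp, huw p hp q List.mem_cons_self⟩)
    have h2 := ih (c ++ [q]) u c' hu (fun x hx => hw x (List.mem_cons_of_mem _ hx))
      (fun p hp x hx => huw p hp x (List.mem_cons_of_mem _ hx))
    have h3 := Submodule.add_mem _ h1 h2
    have e1 : c ++ q :: (u ++ (w ++ c')) = c ++ [q] ++ u ++ w ++ c' := by simp
    have e2 : c ++ u ++ q :: (w ++ c') = c ++ u ++ q :: w ++ c' := by simp
    have e3 : c ++ [q] ++ w ++ u ++ c' = c ++ q :: w ++ u ++ c' := by simp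
    rw [e1, sub_add_sub_cancel, e2, e3] at h3
    exact h3

theorem evc_mem_of_words (N : Submodule ℚ (V d)) (x : A d)
    (h : ∀ c c' : List (Pt d), ev (wd c * x * wd c') ∈ N) (c c' : A d) :
    ev (c * x * c') ∈ N := by
  have h1 : ∀ c : List (Pt d), ∀ c' : A d, ev (wd c * x * c') ∈ N := by
    intro c c'
    have hc' : c' ∈ Submodule.span ℚ (Set.range (wd : List (Pt d) → A d)) := by
      rw [span_wd]; trivial
    refine span_le_of (ev ∘ₗ LinearMap.mulLeft ℚ (wd c * x)) ?_ hc'
    rintro _ ⟨w, rfl⟩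
    exact h c w
  have hc : c ∈ Submodule.span ℚ (Set.range (wd : List (Pt d) → A d)) := by
    rw [span_wd]; trivial
  have := span_le_of (N := N) (ev ∘ₗ LinearMap.mulRight ℚ (x * c')) (by
    rintro _ ⟨w, rfl⟩
    rw [LinearMap.comp_apply, LinearMap.mulRight_apply, ← mul_assoc]
    exact h1 w c') hc
  rw [LinearMap.comp_apply, LinearMap.mulRight_apply, ← mul_assoc] at this
  exact this

theorem s_DN1 : S_DN1 := by
  intro d n
  apply le_inf
  · unfold DD
    rw [Submodule.span_le]
    rintro v ⟨W, W', P, Q, hW, hn, hP, hQ, hPQ, rfl⟩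
    show _ ∈ N1 d
    rw [diff_eq]
    -- first factor
    have key : ∀ u w : List (Pt d), u.Perm P → w.Perm Q → ∀ c c' : A d,
        ev (c * br (wd u) (wd w) * c') ∈ N1 d := by
      intro u w hu hw
      apply evc_mem_of_words
      intro c c'
      have h1 := move2 w c u c' (fun p hp => hP p (hu.mem_iff.1 hp))
        (fun q hq => hQ q (hw.mem_iff.1 hq))
        (fun p hp q hq => hPQ p (hu.mem_iff.1 hp) q (hw.mem_iff.1 hq))
      rw [← ev_wd, ← ev_wd, ← map_sub] at h1
      simp only [wd_append] at h1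
      have e : wd c * br (wd u) (wd w) * wd c' =
          wd c * wd u * wd w * wd c' - wd c * wd w * wd u * wd c' := by
        unfold br; noncomm_ring
      rw [e]; exact h1
    have h2 : ∀ u : List (Pt d), u.Perm P →
        ev (val W * br (wd u) (lb Q) * val W') ∈ N1 d := by
      intro u hu
      have h3 := span_le_of (N := N1 d)
        (evc (val W) (val W') ∘ₗ (LinearMap.mulLeft ℚ (wd u) - LinearMap.mulRight ℚ (wd u))) (by
          rintro x ⟨w, hw, rfl⟩
          exact key u w hu hw _ _) (s_LBW d Q)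
      exact h3
    have h4 := span_le_of (N := N1 d) (evc (val W) (val W') ∘ₗ brL (lb Q)) (by
      rintro x ⟨u, hu, rfl⟩
      exact h2 u hu) (s_LBW d P)
    exact h4
  · unfold DD
    rw [Submodule.span_le]
    rintro v ⟨W, W', P, Q, hW, hn, hP, hQ, hPQ, rfl⟩
    have hperm : (W ++ P :: Q :: W').Perm (W ++ Q :: P :: W') :=
      List.Perm.append_left _ (List.Perm.swap _ _ _)
    exact Submodule.sub_mem _ (mem_F hW hn)
      (mem_F ((BW_perm hperm).1 hW) (by rw [← hperm.length_eq]; exact hn))

end Pool.Agent.Helper81.AD2
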