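import Pool.Agent.Helper88.AD.Upper

/-!
# Arrow diagrams modulo 6T: block words (definitions for the upper bound)

`A d` is the free associative algebra on the endpoints `Pt d`; a tail is `(i, true)`, a head is
`(i, false)`. `ev : A d → V d` sends a word to its diagram (to `0` if it is not a diagram).
-/

namespace Pool.Agent.Helper81.AD2

open Pool.Agent.Helper88.AD

/-- Free associative algebra on the endpoints. -/
abbrev A (d : ℕ) : Type := MonoidAlgebra ℚ (FreeMonoid (Pt d))

/-- The space of all diagrams with named arrows. -/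
abbrev V (d : ℕ) : Type := Dg d →₀ ℚ

variable {d : ℕ}

/-- The monomial of a word. -/
noncomputable def wd (w : List (Pt d)) : A d := MonoidAlgebra.of ℚ _ (FreeMonoid.ofList w)

theorem wd_nil : wd ([] : List (Pt d)) = 1 := map_one _

theorem wd_append (u v : List (Pt d)) : wd (u ++ v) = wd u * wd v := by
  unfold wd
  rw [← map_mul]
  rfl

theorem wd_cons (p : Pt d) (v : List (Pt d)) : wd (p :: v) = wd [p] * wd v := by
  rw [← wd_append]
  rfl

/-- Evaluation of a noncommutative polynomial as a combination of diagrams. -/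
noncomputable def ev : A d →ₗ[ℚ] V d :=
  (Finsupp.linearCombination ℚ fun w : FreeMonoid (Pt d) => el (FreeMonoid.toList w)) ∘ₗ
    (MonoidAlgebra.coeffLinearEquiv (S := ℚ) (M := FreeMonoid (Pt d)) ℚ).toLinearMap

theorem ev_wd (w : List (Pt d)) : ev (wd w) = el w := by
  unfold ev wd
  rw [LinearMap.comp_apply]
  have : (MonoidAlgebra.coeffLinearEquiv (S := ℚ) (M := FreeMonoid (Pt d)) ℚ).toLinearMap
      (MonoidAlgebra.of ℚ _ (FreeMonoid.ofList w)) = Finsupp.single (FreeMonoid.ofList w) 1 := rfl
  rw [this, Finsupp.linearCombination_single, one_smul]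
  rfl

theorem span_wd : Submodule.span ℚ (Set.range (wd : List (Pt d) → A d)) = ⊤ := by
  rw [eq_top_iff]
  intro x _
  induction x using MonoidAlgebra.induction_on with
  | of g => exact Submodule.subset_span ⟨FreeMonoid.toList g, rfl⟩
  | add f g hf hg => exact Submodule.add_mem _ (hf trivial) (hg trivial)
  | smul r f hf => exact Submodule.smul_mem _ _ (hf trivial)

/-- Linear maps out of `A d` agree if they agree on words. -/
theorem ext_wd {M : Type*} [AddCommGroup M] [Module ℚ M] {f g : A d →ₗ[ℚ] M}
    (h : ∀ w, f (wd w) = g (wd w)) : f = g := by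
  refine LinearMap.ext_on_range span_wd h

/-- The algebra endomorphism which replaces the letter `a` by `e` and fixes the other letters. -/
noncomputable def sb (a : Pt d) (e : A d) : A d →ₐ[ℚ] A d :=
  MonoidAlgebra.lift ℚ (A d) (FreeMonoid (Pt d))
    (FreeMonoid.lift fun b => if b = a then e else wd [b])

theorem sb_wd (a : Pt d) (e : A d) (b : Pt d) : sb a e (wd [b]) = if b = a then e else wd [b] := by
  unfold sb wd
  rw [MonoidAlgebra.lift_of]
  exact FreeMonoid.lift_eval_of _ _

theorem sb_self (a : Pt d) (e : A d) : sb a e (wd [a]) = e := by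
  rw [sb_wd, if_pos rfl]

theorem sb_ne {a b : Pt d} (h : b ≠ a) (e : A d) : sb a e (wd [b]) = wd [b] := by
  rw [sb_wd, if_neg h]

/-- The commutator. -/
noncomputable def br (x y : A d) : A d := x * y - y * x

/-- `ad e [p1, …, pm] = [… [[e, p1], p2] …, pm]`. -/
noncomputable def ad (e : A d) (l : List (Pt d)) : A d := l.foldl (fun a p => br a (wd [p])) e

theorem ad_nil (e : A d) : ad e [] = e := rfl

theorem ad_cons (e : A d) (p : Pt d) (l : List (Pt d)) : ad e (p :: l) = ad (br e (wd [p])) l := rfl

theorem ad_append (e : A d) (l m : List (Pt d)) : ad e (l ++ m) = ad (ad e l) m :=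
  List.foldl_append

theorem ad_snoc (e : A d) (l : List (Pt d)) (p : Pt d) :
    ad e (l ++ [p]) = br (ad e l) (wd [p]) := by
  rw [ad_append]; rfl

/-- Left normed bracket `[… [[p1, p2], p3] …, pm]` of a list of letters (`0` for the empty list). -/
noncomputable def lb : List (Pt d) → A d
  | [] => 0
  | p :: l => ad (wd [p]) l

theorem lb_nil : lb ([] : List (Pt d)) = 0 := rfl

theorem lb_cons (p : Pt d) (l : List (Pt d)) : lb (p :: l) = ad (wd [p]) l := rfl

theorem lb_single (p : Pt d) : lb [p] = wd [p] := rfl

theorem lb_append {l : List (Pt d)} (h : l ≠ []) (m : List (Pt d)) :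
    lb (l ++ m) = ad (lb l) m := by
  cases l with
  | nil => exact absurd rfl h
  | cons p l => rw [List.cons_append, lb_cons, lb_cons, ad_append]

/-- The value of a block word: the product of the brackets of its blocks. -/
noncomputable def val (W : List (List (Pt d))) : A d := (W.map lb).prod

theorem val_nil : val ([] : List (List (Pt d))) = 1 := rfl

theorem val_cons (l : List (Pt d)) (W : List (List (Pt d))) : val (l :: W) = lb l * val W := rfl

theorem val_append (W W' : List (List (Pt d))) : val (W ++ W') = val W * val W' := by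
  unfold val
  rw [List.map_append, List.prod_append]

/-- A pure block: a nonempty list of tails, or a nonempty list of heads. -/
def Pur (l : List (Pt d)) : Prop := l ≠ [] ∧ ∀ p ∈ l, ∀ q ∈ l, p.2 = q.2

/-- A block word: all blocks are pure, and every endpoint occurs exactly once. -/
def BW (W : List (List (Pt d))) : Prop := (∀ l ∈ W, Pur l) ∧ IsD W.flatten

/-- The filtration: values of block words with at most `n` blocks. -/
noncomputable def F (d n : ℕ) : Submodule ℚ (V d) :=
  Submodule.span ℚ {v | ∃ W : List (List (Pt d)), BW W ∧ W.length ≤ n ∧ v = ev (val W)}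

/-- Commutation relations: endpoints of different kind of different arrows commute. -/
noncomputable def N1 (d : ℕ) : Submodule ℚ (V d) :=
  Submodule.span ℚ {v | ∃ (u w : List (Pt d)) (i j : Fin d) (b : Bool), i ≠ j ∧
    v = el (u ++ (i, b) :: (j, !b) :: w) - el (u ++ (j, !b) :: (i, b) :: w)}

/-- The 6T relation with named arrows: `h_x` and `t_y` are neighbours; `t_x` is replaced by
`[t_x, t_y]`, and `h_y` by `[h_x, h_y]`. -/
noncomputable def six (c c' : A d) (x y : Fin d) : V d :=
  ev (c * br (wd [(x, false)]) (wd [(y, true)]) * c') +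
    ev (sb (x, true) (br (wd [(x, true)]) (wd [(y, true)])) (c * wd [(x, false)] * c')) +
    ev (sb (y, false) (br (wd [(x, false)]) (wd [(y, false)])) (c * wd [(y, true)] * c'))

/-- The span of the 6T relations with named arrows. -/
noncomputable def N2 (d : ℕ) : Submodule ℚ (V d) :=
  Submodule.span ℚ {v | ∃ (c c' : A d) (x y : Fin d), x ≠ y ∧ v = six c c' x y}

/-- The action of the renamings. -/
noncomputable def act (σ : Equiv.Perm (Fin d)) : V d →ₗ[ℚ] V d :=
  Finsupp.linearCombination ℚ fun w : Dg d => el (ren σ w.1)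

/-- The span of the differences `v - σ v`. -/
noncomputable def RN (d : ℕ) : Submodule ℚ (V d) :=
  Submodule.span ℚ {v | ∃ (σ : Equiv.Perm (Fin d)) (w : V d), v = w - act σ w}

theorem isD_ren (σ : Equiv.Perm (Fin d)) (w : List (Pt d)) : IsD (ren σ w) ↔ IsD w := by
  have hinj : Function.Injective fun p : Pt d => ((σ p.1, p.2) : Pt d) := by
    rintro ⟨a, b⟩ ⟨a', b'⟩ h
    simp only [Prod.mk.injEq, EmbeddingLike.apply_eq_iff_eq] at h
    rw [h.1, h.2]
  constructor
  · intro h x
    have := h (σ x.1, x.2)
    unfold ren at this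
    rw [← List.count_map_of_injective w _ hinj x]
    exact this
  · rintro h ⟨a, b⟩
    have := h (σ.symm a, b)
    rw [← List.count_map_of_injective w _ hinj (σ.symm a, b)] at this
    simpa [ren] using this

theorem act_el (σ : Equiv.Perm (Fin d)) (w : List (Pt d)) : act σ (el w) = el (ren σ w) := by
  by_cases h : IsD w
  · unfold act
    rw [el_of h, Finsupp.linearCombination_single, one_smul]
  · rw [el_of_not h, map_zero, el_of_not (fun h' => h ((isD_ren σ w).1 h'))]

theorem ren_ren (σ τ : Equiv.Perm (Fin d)) (w : List (Pt d)) : ren σ (ren τ w) = ren (σ * τ) w := by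
  unfold ren
  rw [List.map_map]
  rfl

theorem ren_one (w : List (Pt d)) : ren 1 w = w := by
  unfold ren
  simp

theorem V_ext {M : Type*} [AddCommGroup M] [Module ℚ M] {f g : V d →ₗ[ℚ] M}
    (h : ∀ w : List (Pt d), f (el w) = g (el w)) : f = g :=
  LinearMap.ext_on_range (span_el d) h

theorem act_one : act (1 : Equiv.Perm (Fin d)) = LinearMap.id := by
  apply V_ext
  intro w
  rw [act_el, ren_one]
  rfl

theorem act_mul (σ τ : Equiv.Perm (Fin d)) : act (σ * τ) = act σ ∘ₗ act τ := by
  apply V_ext
  intro w
  rw [LinearMap.comp_apply, act_el, act_el, act_el, ren_ren]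

/-- Interchange of a tail block and a head block with disjoint sets of arrows. -/
noncomputable def DD (d n : ℕ) : Submodule ℚ (V d) :=
  Submodule.span ℚ {v | ∃ (W W' : List (List (Pt d))) (P Q : List (Pt d)),
    BW (W ++ P :: Q :: W') ∧ (W ++ P :: Q :: W').length ≤ n ∧ (∀ p ∈ P, p.2 = true) ∧
    (∀ q ∈ Q, q.2 = false) ∧ (∀ p ∈ P, ∀ q ∈ Q, p.1 ≠ q.1) ∧
    v = ev (val (W ++ P :: Q :: W')) - ev (val (W ++ Q :: P :: W'))}

/-- The blocks start with their smallest name. -/
def MinFirst (W : List (List (Pt d))) : Prop :=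
  ∀ (a : Pt d) (m : List (Pt d)), (a :: m) ∈ W → ∀ p ∈ m, a.1 < p.1

/-- For every arrow: does its tail come before its head? -/
def dirs (w : List (Pt d)) : Fin d → Bool :=
  fun i => decide (w.idxOf (i, true) < w.idxOf (i, false))

/-- Classes of block words starting with the smallest names: the multiset of the blocks and the
directions of the arrows. -/
def Cls (d : ℕ) : Set (Multiset (List (Pt d)) × (Fin d → Bool)) :=
  {c | ∃ W : List (List (Pt d)), BW W ∧ MinFirst W ∧ c = (↑W, dirs W.flatten)}

/-- The function `f` respects the directions `ε`. -/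
def Dir (ε : Fin d → Bool) (f : Pt d → ℕ) : Prop :=
  ∀ i, (ε i = true → f (i, true) < f (i, false)) ∧ (ε i = false → f (i, false) < f (i, true))

/-- Linear orders on tails and on heads (given by the ranks `σ true`, `σ false`), compatible with
the directions `ε`. -/
def Ordd (σ : Bool → Equiv.Perm (Fin d)) (ε : Fin d → Bool) : Prop :=
  ∃ f : Pt d → ℕ, Dir ε f ∧ ∀ b i j, σ b i < σ b j → f (i, b) < f (j, b)

/-- Permutations of the tails and of the heads whose cycles can be collapsed compatibly with the
directions `ε`. -/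
def Cycc (σ : Bool → Equiv.Perm (Fin d)) (ε : Fin d → Bool) : Prop :=
  ∃ f : Pt d → ℕ, Dir ε f ∧ ∀ b i, f (σ b i, b) = f (i, b)

/-- The bound. -/
def bd (d : ℕ) : ℕ := ∑ k ∈ Finset.range (d + 1), d.choose k ^ 2 * k.factorial

/-! ### Small facts -/

theorem br_self (x : A d) : br x x = 0 := sub_self _

theorem br_neg (x y : A d) : br y x = - br x y := by
  unfold br; rw [neg_sub]

/-- Jacobi identity. -/
theorem br_br (x y z : A d) : br x (br y z) = br (br x y) z - br (br x z) y := by
  unfold br; noncomm_ring

/-- `x ↦ br x y` as a linear map. -/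
noncomputable def brL (y : A d) : A d →ₗ[ℚ] A d :=
  LinearMap.mulRight ℚ y - LinearMap.mulLeft ℚ y

theorem brL_apply (x y : A d) : brL y x = br x y := rfl

/-- `x ↦ ad x l` as a linear map. -/
noncomputable def adL : List (Pt d) → A d →ₗ[ℚ] A d
  | [] => LinearMap.id
  | p :: l => adL l ∘ₗ brL (wd [p])

theorem adL_apply (x : A d) (l : List (Pt d)) : adL l x = ad x l := by
  induction l generalizing x with
  | nil => rfl
  | cons p l ih => rw [ad_cons, ← ih]; rfl

theorem ad_add (x y : A d) (l : List (Pt d)) : ad (x + y) l = ad x l + ad y l := by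
  rw [← adL_apply, map_add, adL_apply, adL_apply]

theorem ad_neg (x : A d) (l : List (Pt d)) : ad (-x) l = -ad x l := by
  rw [← adL_apply, map_neg, adL_apply]

theorem ad_smul (c : ℚ) (x : A d) (l : List (Pt d)) : ad (c • x) l = c • ad x l := by
  rw [← adL_apply, map_smul, adL_apply]

theorem sb_br (a : Pt d) (e x y : A d) : sb a e (br x y) = br (sb a e x) (sb a e y) := by
  unfold br; rw [map_sub, map_mul, map_mul]

theorem sb_ad {a : Pt d} {l : List (Pt d)} (h : a ∉ l) (e x : A d) :
    sb a e (ad x l) = ad (sb a e x) l := by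
  induction l generalizing x with
  | nil => rfl
  | cons p l ih =>
    rw [List.mem_cons, not_or] at h
    rw [ad_cons, ad_cons, ih h.2, sb_br, sb_ne (Ne.symm h.1)]

theorem sb_lb {a : Pt d} {l : List (Pt d)} (h : a ∉ l) (e : A d) : sb a e (lb l) = lb l := by
  cases l with
  | nil => rw [lb_nil, map_zero]
  | cons p l =>
    rw [List.mem_cons, not_or] at h
    rw [lb_cons, sb_ad h.2, sb_ne (Ne.symm h.1)]

theorem sb_val {a : Pt d} {W : List (List (Pt d))} (h : a ∉ W.flatten) (e : A d) :
    sb a e (val W) = val W := by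
  induction W with
  | nil => rw [val_nil, map_one]
  | cons l W ih =>
    rw [List.flatten_cons, List.mem_append, not_or] at h
    rw [val_cons, map_mul, sb_lb h.1, ih h.2]

theorem sb_wd_of_not_mem {a : Pt d} {w : List (Pt d)} (h : a ∉ w) (e : A d) :
    sb a e (wd w) = wd w := by
  induction w with
  | nil => rw [wd_nil, map_one]
  | cons p w ih =>
    rw [List.mem_cons, not_or] at h
    rw [wd_cons, map_mul, sb_ne (Ne.symm h.1), ih h.2]

theorem BW_perm {W W' : List (List (Pt d))} (h : W.Perm W') : BW W ↔ BW W' := by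
  unfold BW
  rw [isD_perm h.flatten]
  constructor
  · rintro ⟨h1, h2⟩; exact ⟨fun l hl => h1 l (h.mem_iff.2 hl), h2⟩
  · rintro ⟨h1, h2⟩; exact ⟨fun l hl => h1 l (h.mem_iff.1 hl), h2⟩

theorem F_mono (d : ℕ) : Monotone (F d) := by
  intro m n h
  apply Submodule.span_mono
  rintro v ⟨W, h1, h2, h3⟩
  exact ⟨W, h1, h2.trans h, h3⟩

theorem mem_F {W : List (List (Pt d))} (h : BW W) {n : ℕ} (hn : W.length ≤ n) :
    ev (val W) ∈ F d n := Submodule.subset_span ⟨W, h, hn, rfl⟩

theorem pur_single (p : Pt d) : Pur [p] := by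
  refine ⟨by simp, ?_⟩
  intro x hx y hy
  rw [List.mem_singleton] at hx hy
  rw [hx, hy]

theorem val_singles (w : List (Pt d)) : val (w.map fun p => [p]) = wd w := by
  induction w with
  | nil => rw [List.map_nil, val_nil, wd_nil]
  | cons p w ih => rw [List.map_cons, val_cons, ih, lb_single, ← wd_cons]

end Pool.Agent.Helper81.AD2
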