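import Pool.Agent.Helper81.AD2.Goals

namespace Pool.Agent.Helper81.AD2.CAN1

open Pool.Agent.Helper88.AD Pool.Agent.Helper81.AD2

variable {d : ℕ}

/-- Tails come in order. -/
def TO (w : List (Pt d)) : Prop := ∀ i j : Fin d, i < j → w.idxOf (i, true) < w.idxOf (j, true)

/-- Number of pairs (head before tail). -/
def inv : List (Pt d) → ℕ
  | [] => 0
  | p :: w => (if p.2 = false then (w.filter fun q => q.2).length else 0) + inv w

theorem inv_swap (u v : List (Pt d)) (i j : Fin d) :
    inv (u ++ (i, false) :: (j, true) :: v) = inv (u ++ (j, true) :: (i, false) :: v) + 1 := by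
  induction u with
  | nil => simp [inv]; omega
  | cons p u ih =>
    rw [List.cons_append, List.cons_append]
    unfold inv
    rw [ih]
    have h : ((u ++ (i, false) :: (j, true) :: v).filter fun q => q.2).length =
        ((u ++ (j, true) :: (i, false) :: v).filter fun q => q.2).length := by
      simp [List.filter_append]
    rw [h]
    omega

theorem idxOf_ren (σ : Equiv.Perm (Fin d)) (w : List (Pt d)) (i : Fin d) (b : Bool) :
    (ren σ w).idxOf (i, b) = w.idxOf (σ.symm i, b) := by
  unfold ren
  induction w with
  | nil => rfl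
  | cons p w ih =>
    rw [List.map_cons, List.idxOf_cons, List.idxOf_cons, ih]
    have h : ((σ p.1, p.2) == ((i, b) : Pt d)) = (p == (σ.symm i, b)) := by
      rw [Bool.eq_iff_iff, beq_iff_eq, beq_iff_eq]
      obtain ⟨a, c⟩ := p
      simp only [Prod.mk.injEq]
      rw [Equiv.eq_symm_apply]
    rw [h]

theorem exists_TO {w : List (Pt d)} (hw : IsD w) : ∃ σ : Equiv.Perm (Fin d), TO (ren σ w) := by
  let f : Fin d → ℕ := fun i => w.idxOf (i, true)
  have hmem : ∀ x : Pt d, x ∈ w := fun x => List.count_pos_iff.1 (by rw [hw x]; norm_num)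
  have hf : Function.Injective f := by
    intro i j h
    have := (List.idxOf_inj (hmem (i, true))).1 h
    simpa using this
  refine ⟨(Tuple.sort f)⁻¹, ?_⟩
  intro i j hij
  rw [idxOf_ren, idxOf_ren]
  have hm := Tuple.monotone_sort f
  have hs : StrictMono (f ∘ Tuple.sort f) :=
    hm.strictMono_of_injective (hf.comp (Tuple.sort f).injective)
  exact hs hij

theorem TO_swap {u v : List (Pt d)} {i j : Fin d} (hw : IsD (u ++ (i, false) :: (j, true) :: v))
    (h : TO (u ++ (i, false) :: (j, true) :: v)) : TO (u ++ (j, true) :: (i, false) :: v) := by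
  intro a b hab
  have h1 := h a b hab
  have hju : (j, true) ∉ u := by
    intro hm
    have h2 := hw (j, true)
    rw [List.count_append, List.count_cons, List.count_cons] at h2
    have h3 := List.count_pos_iff.2 hm
    simp at h2
    omega
  simp only [List.idxOf_append, List.idxOf_cons] at h1 ⊢
  by_cases ha : (a, true) ∈ u <;> by_cases hb : (b, true) ∈ u
  · simp only [ha, hb, if_true] at h1 ⊢
    exact h1
  · simp only [ha, hb, if_true, if_false] at h1 ⊢
    have := List.idxOf_lt_length_of_mem ha
    omega
  · exfalso
    simp only [ha, hb, if_true, if_false] at h1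
    have := List.idxOf_lt_length_of_mem hb
    omega
  · simp only [ha, hb, if_false] at h1 ⊢
    have e1 : (((i, false) : Pt d) == (a, true)) = false := by simp
    have e2 : (((i, false) : Pt d) == (b, true)) = false := by simp
    rw [e1, e2] at h1 ⊢
    simp only [cond_false] at h1 ⊢
    rcases eq_or_ne a j with rfl | haj
    · have e3 : (((a, true) : Pt d) == (b, true)) = false := by
        simp only [beq_eq_false_iff_ne, ne_eq, Prod.mk.injEq, and_true]
        exact ne_of_lt hab
      rw [e3]
      simp only [cond_false, beq_self_eq_true, cond_true]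
      omega
    · have e3 : (((j, true) : Pt d) == (a, true)) = false := by
        simp only [beq_eq_false_iff_ne, ne_eq, Prod.mk.injEq, and_true]
        exact fun h => haj h.symm
      rw [e3] at h1 ⊢
      rcases eq_or_ne b j with rfl | hbj
      · exfalso
        simp only [cond_false, beq_self_eq_true, cond_true] at h1
        omega
      · have e4 : (((j, true) : Pt d) == (b, true)) = false := by
          simp only [beq_eq_false_iff_ne, ne_eq, Prod.mk.injEq, and_true]
          exact fun h => hbj h.symm
        rw [e4] at h1 ⊢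
        simp only [cond_false] at h1 ⊢
        omega

theorem isD_swap {u v : List (Pt d)} {p q : Pt d} (h : IsD (u ++ p :: q :: v)) :
    IsD (u ++ q :: p :: v) := by
  have hp : (u ++ p :: q :: v).Perm (u ++ q :: p :: v) :=
    List.Perm.append_left u (List.Perm.swap q p v)
  exact (isD_perm hp).1 h

theorem step (n : ℕ) : ∀ w : List (Pt d), inv w = n → IsD w → TO w →
    el w ∈ N1 d ⊔ Submodule.span ℚ {v | ∃ u : List (Pt d), Can u ∧ v = el u} := by
  induction n with
  | zero =>
    intro w hn hw hT
    apply Submodule.mem_sup_right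
    apply Submodule.subset_span
    refine ⟨w, ⟨hw, hT, ?_⟩, rfl⟩
    intro u v i j h
    exfalso
    rw [h, inv_swap] at hn
    omega
  | succ n ih =>
    intro w hn hw hT
    by_cases hc : ∀ (u v : List (Pt d)) (i j : Fin d), w = u ++ (i, false) :: (j, true) :: v → i = j
    · exact Submodule.mem_sup_right (Submodule.subset_span ⟨w, ⟨hw, hT, hc⟩, rfl⟩)
    · push Not at hc
      obtain ⟨u, v, i, j, h, hij⟩ := hc
      subst h
      have h1 := ih (u ++ (j, true) :: (i, false) :: v) (by rw [inv_swap] at hn; omega)
        (isD_swap hw) (TO_swap hw hT)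
      have h2 : el (u ++ (i, false) :: (j, true) :: v) - el (u ++ (j, true) :: (i, false) :: v) ∈
          N1 d := Submodule.subset_span ⟨u, v, i, j, false, hij, rfl⟩
      have h3 := Submodule.add_mem _ (Submodule.mem_sup_left h2) h1
      rw [sub_add_cancel] at h3
      exact h3

theorem t : S_CAN1 := by
  intro d w
  by_cases hw : IsD w
  · obtain ⟨σ, hσ⟩ := exists_TO hw
    have h1 := step _ (ren σ w) rfl ((isD_ren σ w).2 hw) hσ
    have h2 : el w - el (ren σ w) ∈ RN d :=
      Submodule.subset_span ⟨σ, el w, by rw [act_el]⟩
    have h3 : el w = (el w - el (ren σ w)) + el (ren σ w) := by abel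
    rw [h3]
    refine Submodule.add_mem _ ?_ ?_
    · exact Submodule.mem_sup_left (Submodule.mem_sup_right h2)
    · exact (sup_le_sup_right le_sup_left _ : N1 d ⊔ Submodule.span ℚ {v | ∃ u : List (Pt d),
        Can u ∧ v = el u} ≤ _) h1
  · rw [el_of_not hw]
    exact Submodule.zero_mem _

end Pool.Agent.Helper81.AD2.CAN1
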