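import Pool.Agent.Helper81.AD2.Alg2

/-! MIXED. -/

namespace Pool.Agent.Helper81.AD2

open Pool.Agent.Helper88.AD

variable {d : ℕ}

/-- The 6T relation for a linear map in place of `e ↦ c * e * c'`. -/
def Rel6 (x y : Fin d) (L : A d →ₗ[ℚ] A d) : Prop :=
  ev (L (br (wd [(x, false)]) (wd [(y, true)]))) +
    ev (sb (x, true) (br (wd [(x, true)]) (wd [(y, true)])) (L (wd [(x, false)]))) +
    ev (sb (y, false) (br (wd [(x, false)]) (wd [(y, false)])) (L (wd [(y, true)]))) ∈ N2 d

theorem Rel6.add {x y : Fin d} {L L' : A d →ₗ[ℚ] A d} (h : Rel6 x y L) (h' : Rel6 x y L') :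
    Rel6 x y (L + L') := by
  unfold Rel6 at *
  have := Submodule.add_mem _ h h'
  simp only [LinearMap.add_apply, map_add]
  have e : ∀ a b c a' b' c' : V d, a + a' + (b + b') + (c + c') = a + b + c + (a' + b' + c') := by
    intros; abel
  rw [e]; exact this

theorem Rel6.smul {x y : Fin d} {L : A d →ₗ[ℚ] A d} (c : ℚ) (h : Rel6 x y L) :
    Rel6 x y (c • L) := by
  unfold Rel6 at *
  have := Submodule.smul_mem _ c h
  simp only [LinearMap.smul_apply, map_smul]
  rw [← smul_add, ← smul_add]; exact this

/-- The maps `e ↦ c * e * c'`. -/
noncomputable def bim (c c' : A d) : A d →ₗ[ℚ] A d :=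
  LinearMap.mulRight ℚ c' ∘ₗ LinearMap.mulLeft ℚ c

theorem bim_apply (c c' e : A d) : bim c c' e = c * e * c' := rfl

/-- Combinations of the maps `e ↦ c * e * c'`. -/
noncomputable def BB (d : ℕ) : Submodule ℚ (A d →ₗ[ℚ] A d) :=
  Submodule.span ℚ {L | ∃ c c' : A d, L = bim c c'}

theorem rel6_of_mem {x y : Fin d} (hxy : x ≠ y) {L : A d →ₗ[ℚ] A d} (h : L ∈ BB d) :
    Rel6 x y L := by
  induction h using Submodule.span_induction with
  | mem L h =>
    obtain ⟨c, c', rfl⟩ := h
    exact Submodule.subset_span ⟨c, c', x, y, hxy, rfl⟩
  | zero =>
    unfold Rel6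
    simp only [LinearMap.zero_apply, map_zero, add_zero]
    exact Submodule.zero_mem _
  | add L L' _ _ h h' => exact h.add h'
  | smul c L _ h => exact h.smul c

theorem comp_brL_mem {L : A d →ₗ[ℚ] A d} (h : L ∈ BB d) (y : A d) : L ∘ₗ brL y ∈ BB d := by
  induction h using Submodule.span_induction with
  | mem L h =>
    obtain ⟨c, c', rfl⟩ := h
    have e : bim c c' ∘ₗ brL y = bim c (y * c') - bim (c * y) c' := by
      apply LinearMap.ext
      intro e
      rw [LinearMap.comp_apply, LinearMap.sub_apply, brL_apply, bim_apply, bim_apply, bim_apply]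
      unfold br
      noncomm_ring
    rw [e]
    exact Submodule.sub_mem _ (Submodule.subset_span ⟨_, _, rfl⟩)
      (Submodule.subset_span ⟨_, _, rfl⟩)
  | zero => rw [LinearMap.zero_comp]; exact Submodule.zero_mem _
  | add L L' _ _ h h' => rw [LinearMap.add_comp]; exact Submodule.add_mem _ h h'
  | smul c L _ h => rw [LinearMap.smul_comp]; exact Submodule.smul_mem _ _ h

theorem comp_adL_mem (m : List (Pt d)) {L : A d →ₗ[ℚ] A d} (h : L ∈ BB d) :
    L ∘ₗ adL m ∈ BB d := by
  induction m generalizing L with
  | nil => exact h
  | cons p m ih =>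
    have : L ∘ₗ adL (p :: m) = (L ∘ₗ adL m) ∘ₗ brL (wd [p]) := rfl
    rw [this]
    exact comp_brL_mem (ih h) _

theorem rel6_ad {x y : Fin d} (hxy : x ≠ y) (c c' : A d) (m : List (Pt d)) :
    ev (c * ad (br (wd [(x, false)]) (wd [(y, true)])) m * c') +
    ev (sb (x, true) (br (wd [(x, true)]) (wd [(y, true)])) (c * ad (wd [(x, false)]) m * c')) +
    ev (sb (y, false) (br (wd [(x, false)]) (wd [(y, false)])) (c * ad (wd [(y, true)]) m * c')) ∈
      N2 d := by
  have h := rel6_of_mem hxy (comp_adL_mem m (Submodule.subset_span ⟨c, c', rfl⟩ :
    bim c c' ∈ BB d))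
  unfold Rel6 at h
  simp only [LinearMap.comp_apply, adL_apply, bim_apply] at h
  exact h

/-- Substitution in the context of a bracket. -/
theorem sub_context (W W' : List (List (Pt d))) (z : List (Pt d)) (a b a' b' : Pt d)
    (hW : ∀ l ∈ W, Pur l) (hW' : ∀ l ∈ W', Pur l) (ha : (W.flatten ++ W'.flatten).count a = 1)
    (haz : a ∉ z) (hb : b.2 = a.2) (hab : ([a', b'] : List (Pt d)).Perm [b, a])
    (N : Submodule ℚ (V d))
    (hN : ∀ W1 W1' : List (List (Pt d)), (∀ l ∈ W1, Pur l) → (∀ l ∈ W1', Pur l) →
      W1.length = W.length → W1'.length = W'.length →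
      (W1.flatten ++ W1'.flatten).Perm (b :: (W.flatten ++ W'.flatten)) →
      ev (val W1 * lb z * val W1') ∈ N) :
    ev (sb a (br (wd [a']) (wd [b'])) (val W * lb z * val W')) ∈ N := by
  rw [map_mul (sb a (br (wd [a']) (wd [b']))), map_mul (sb a (br (wd [a']) (wd [b']))), sb_lb haz]
  rw [List.count_append] at ha
  by_cases h0 : W.flatten.count a = 1
  · have h1 : a ∉ W'.flatten := List.count_eq_zero.1 (by omega)
    rw [sb_val h1]
    refine span_le_of (ev ∘ₗ LinearMap.mulRight ℚ (val W') ∘ₗ LinearMap.mulRight ℚ (lb z)) ?_
      (sub_val W a b a' b' hW h0 hb hab)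
    rintro x ⟨W1, h2, h3, h4, rfl⟩
    exact hN W1 W' h2 hW' h3 rfl (h4.append_right _)
  · have h1 : a ∉ W.flatten := List.count_eq_zero.1 (by omega)
    have h2 : W'.flatten.count a = 1 := by omega
    rw [sb_val h1]
    refine span_le_of (ev ∘ₗ LinearMap.mulLeft ℚ (val W * lb z)) ?_
      (sub_val W' a b a' b' hW' h2 hb hab)
    rintro x ⟨W1, h3, h4, h5, rfl⟩
    refine hN W W1 hW h3 rfl h4 ?_
    refine (h5.append_left _).trans ?_
    exact List.perm_middle

theorem s_MIXED : S_MIXED := by
  intro d W W' z
  induction hn : z.length using Nat.strong_induction_on generalizing W W' z with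
  | _ n ih =>
    intro hW hW' hz hD hi
    by_cases hp : Pur z
    · -- pure
      have h1 : val W * lb z * val W' = val (W ++ z :: W') := by
        rw [val_append, val_cons, mul_assoc]
      rw [h1]
      apply Submodule.mem_sup_right
      apply mem_F
      · constructor
        · intro l hl
          rw [List.mem_append, List.mem_cons] at hl
          rcases hl with hl | rfl | hl
          · exact hW l hl
          · exact hp
          · exact hW' l hl
        · rw [List.flatten_append, List.flatten_cons, ← List.append_assoc]; exact hD
      · simp; omega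
    · -- mixed
      have hmix : (∃ y, (y, true) ∈ z) ∧ (∃ x, (x, false) ∈ z) := by
        by_contra hcon
        apply hp
        refine ⟨hz, ?_⟩
        intro p hp' q hq'
        rcases p with ⟨i, b⟩
        rcases q with ⟨j, c⟩
        by_contra hbc
        apply hcon
        cases b <;> cases c
        · exact absurd rfl hbc
        · exact ⟨⟨j, hq'⟩, ⟨i, hp'⟩⟩
        · exact ⟨⟨i, hp'⟩, ⟨j, hq'⟩⟩
        · exact absurd rfl hbc
      rw [← evc_apply]
      refine span_le_of (evc (val W) (val W')) ?_ (s_MIX d z hmix.1 hmix.2)
      rintro v ⟨x, y, m, hm, rfl⟩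
      rw [evc_apply]
      have hzn : z.Nodup := by
        have h0 := ((isD_iff _).1 hD).1
        exact (List.nodup_append.1 (List.nodup_append.1 h0).1).2.1
      have hxz : (x, false) ∈ z := hm.mem_iff.1 List.mem_cons_self
      have hyz : (y, true) ∈ z := hm.mem_iff.1 (List.mem_cons_of_mem _ List.mem_cons_self)
      have hxy : x ≠ y := by
        rintro rfl
        exact hi x ⟨hyz, hxz⟩
      have hlen : m.length + 2 = n := by
        rw [← hn, ← hm.length_eq]; rfl
      have hcount : ∀ p : Pt d, p ∉ z → (W.flatten ++ W'.flatten).count p = 1 := by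
        intro p hp'
        have h0 := hD p
        rw [List.count_append, List.count_append] at h0
        rw [List.count_append]
        have := List.count_eq_zero.2 hp'
        omega
      have htx : (x, true) ∉ z := fun h0 => hi x ⟨h0, hxz⟩
      have hhy : (y, false) ∉ z := fun h0 => hi y ⟨hyz, h0⟩
      have hsub : ∀ p ∈ m, p ∈ z := fun p hp' =>
        hm.mem_iff.1 (List.mem_cons_of_mem _ (List.mem_cons_of_mem _ hp'))
      -- the second term
      have t2 : ev (sb (x, true) (br (wd [(x, true)]) (wd [(y, true)]))
          (val W * lb ((x, false) :: m) * val W')) ∈ N2 d ⊔ F d (W.length + W'.length + 1) := by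
        apply sub_context W W' ((x, false) :: m) (x, true) (y, true) (x, true) (y, true) hW hW'
          (hcount _ htx) _ rfl (List.Perm.swap _ _ _)
        · intro W1 W1' h1 h1' h2 h2' h3
          rw [← h2, ← h2']
          refine ih (m.length + 1) (by omega) W1 W1' ((x, false) :: m) rfl h1 h1' (by simp) ?_ ?_
          · refine (isD_perm ?_).1 hD
            have e1 : (W.flatten ++ z ++ W'.flatten).Perm (z ++ (W.flatten ++ W'.flatten)) := by
              rw [List.append_assoc, ← List.append_assoc z]
              refine (List.perm_append_comm_assoc _ _ _).trans ?_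
              rw [List.append_assoc]
            have e2 : (W1.flatten ++ (x, false) :: m ++ W1'.flatten).Perm
                (((x, false) :: m) ++ (W1.flatten ++ W1'.flatten)) := by
              rw [List.append_assoc, ← List.append_assoc ((x, false) :: m)]
              refine (List.perm_append_comm_assoc _ _ _).trans ?_
              rw [List.append_assoc]
            refine e1.trans (List.Perm.trans ?_ e2.symm)
            refine (hm.symm.append_right _).trans ?_
            refine List.Perm.trans ?_ (h3.symm.append_left _)
            rw [List.cons_append, List.cons_append, List.cons_append]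
            refine List.Perm.cons _ ?_
            exact List.perm_middle.symm
          · rintro i ⟨h4, h5⟩
            apply hi i
            constructor
            · rcases List.mem_cons.1 h4 with h4 | h4
              · simp at h4
              · exact hsub _ h4
            · rcases List.mem_cons.1 h5 with h5 | h5
              · rw [h5]; exact hxz
              · exact hsub _ h5
        · intro h4
          rcases List.mem_cons.1 h4 with h4 | h4
          · simp at h4
          · exact htx (hsub _ h4)
      have t3 : ev (sb (y, false) (br (wd [(x, false)]) (wd [(y, false)]))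
          (val W * lb ((y, true) :: m) * val W')) ∈ N2 d ⊔ F d (W.length + W'.length + 1) := by
        apply sub_context W W' ((y, true) :: m) (y, false) (x, false) (x, false) (y, false) hW hW'
          (hcount _ hhy) _ rfl (List.Perm.refl _)
        · intro W1 W1' h1 h1' h2 h2' h3
          rw [← h2, ← h2']
          refine ih (m.length + 1) (by omega) W1 W1' ((y, true) :: m) rfl h1 h1' (by simp) ?_ ?_
          · refine (isD_perm ?_).1 hD
            have e1 : (W.flatten ++ z ++ W'.flatten).Perm (z ++ (W.flatten ++ W'.flatten)) := by
              rw [List.append_assoc, ← List.append_assoc z]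
              refine (List.perm_append_comm_assoc _ _ _).trans ?_
              rw [List.append_assoc]
            have e2 : (W1.flatten ++ (y, true) :: m ++ W1'.flatten).Perm
                (((y, true) :: m) ++ (W1.flatten ++ W1'.flatten)) := by
              rw [List.append_assoc, ← List.append_assoc ((y, true) :: m)]
              refine (List.perm_append_comm_assoc _ _ _).trans ?_
              rw [List.append_assoc]
            refine e1.trans (List.Perm.trans ?_ e2.symm)
            refine (hm.symm.append_right _).trans ?_
            refine List.Perm.trans ?_ (h3.symm.append_left _)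
            rw [List.cons_append, List.cons_append, List.cons_append]
            refine (List.Perm.swap _ _ _).trans ?_
            refine List.Perm.cons _ ?_
            exact List.perm_middle.symm
          · rintro i ⟨h4, h5⟩
            apply hi i
            constructor
            · rcases List.mem_cons.1 h4 with h4 | h4
              · rw [h4]; exact hyz
              · exact hsub _ h4
            · rcases List.mem_cons.1 h5 with h5 | h5
              · simp at h5
              · exact hsub _ h5
        · intro h4
          rcases List.mem_cons.1 h4 with h4 | h4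
          · simp at h4
          · exact hhy (hsub _ h4)
      have h6 := Submodule.mem_sup_left (T := F d (W.length + W'.length + 1))
        (rel6_ad hxy (val W) (val W') m)
      have h7 := Submodule.sub_mem _ (Submodule.sub_mem _ h6 t3) t2
      rw [lb_cons, lb_cons] at h7
      rw [add_sub_cancel_right, add_sub_cancel_right] at h7
      exact h7

end Pool.Agent.Helper81.AD2
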