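import Pool.Agent.Helper81.AD2.Alg2
import Pool.Agent.Helper81.AD2.Mixed
import Pool.Agent.Helper1.AD2.TLC
import Pool.Agent.Helper8.AD2.CAN
import Pool.Agent.Helper12.AD2.CLS
import Pool.Agent.Helper14.AD2.MAIN
import Pool.Agent.Helper15.AD2.NUM
import Pool.Agent.Helper27.AD2.CMP
import Pool.Agent.Helper39.AD2.CAN2
import Pool.Agent.Helper81.AD2.CAN1
import Pool.Agent.Helper46.AD2.SPAN
import Pool.Agent.Helper48.AD2.TLO
import Pool.Agent.Helper50.AD2.RW
import Pool.Agent.Helper55.AD2.TLL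
import Pool.Agent.Helper66.AD2.STR
import Pool.Agent.Helper73.AD2.LIM
import Pool.Agent.Helper83.AD2.TML
import Pool.Agent.Helper86.AD2.INV
import Pool.Agent.Helper87.AD2.INVAR
import Pool.Agent.Helper91.AD2.TL

/-! Assembly of the upper bound for the dimension of the spaces of arrow diagrams on the interval. -/

namespace Pool.Agent.Helper81.AD2

theorem s_MAIN : S_MAIN :=
  Helper14.AD2.MAIN.t (Helper46.AD2.SPAN.t Helper83.AD2.TML.t) Helper12.AD2.CLS.t
    (Helper55.AD2.TLL.t (Helper91.AD2.TL.t Helper1.AD2.TLC.t Helper48.AD2.TLO.t))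
    Helper86.AD2.INV.t s_DN1 Helper66.AD2.STR.t (s_DN2 s_MIXED) Helper27.AD2.CMP.t
    (Helper8.AD2.CAN.t CAN1.t Helper39.AD2.CAN2.t) Helper50.AD2.RW.t
    Helper87.AD2.INVAR.t

theorem s_NUM : S_NUM := Helper15.AD2.NUM.t

theorem s_LIM : S_LIM := Helper73.AD2.LIM.t s_NUM

end Pool.Agent.Helper81.AD2
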