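import Pool.Agent.Helper81.AD2.Base

/-!
# The upper bound `dim A(I)^(d) ≤ N_d = ∑ C(d,k)^2 k!`: goals

Whole proof. Words in the endpoints are filtered by the number of blocks: `F d n` is spanned by
the products of at most `n` brackets of pure blocks (tails only, or heads only).
(1) 6T with named arrows (`N2`) implies that a tail block and a head block without common arrow
commute modulo fewer blocks (`S_MIXED`, `S_DN2`). These commutators (`DD`) lie in the ideal `N1` of
the relations `t_i h_j = h_j t_i` (`i ≠ j`).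
(2) `N1 ⊓ F (n+1) ≤ F n ⊔ DD (n+1)`: the space `F (n+1)` modulo the right side is spanned by
`#{c ∈ Cls d | n+1 blocks}` elements (`S_SPAN`), the total number of classes is at most the number
of pairs of permutations and directions with `Cycc` (`S_CLS`), which is the number of those with
`Ordd` (`S_TLL`), which is at most `dim V - dim N1` (`S_INV`); so all inequalities are equalities
(`S_STR`).
(3) Hence `N1 ⊓ F (n+1) ≤ N2 ⊔ F n`, and averaging over the renamings gives
`dim V/(N2 + RN) ≤ dim V/(N1 + RN)` (`S_CMP`). The left space surjects on `A(I)^(d)`, and the right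
dimension is at most `N_d` (`S_CAN1`, `S_CAN2`).

Each packet proves one `S_XXX` below; every other `S_YYY` may be taken as a hypothesis where the
docstring says so. Deliver `Pool/Agent/<Seat>/AD2/XXX.lean`, namespace `Pool.Agent.<Seat>.AD2.XXX`,
`theorem t : S_XXX` (or `theorem t (h : S_YYY) : S_XXX`).
-/

namespace Pool.Agent.Helper81.AD2

open Pool.Agent.Helper88.AD

/-! ### Brackets in the free algebra -/

/-- BR (0.5 h). Proof: induction on `l` from the right (`List.reverseRecOn`), for all `e`.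
`l = [p]`: `br e (wd [p]) = ad e [p]`. `l = l0 ++ [p]`, `l0 ≠ []`: `lb l = br (lb l0) (wd [p])`
(`lb_append`, `ad_cons`), and by Jacobi (`br_br`)
`br e (lb l) = br (br e (lb l0)) (wd [p]) - br (br e (wd [p])) (lb l0)`. By induction
`br e (lb l0)` is a combination of `ad e m`, `m ~ l0`, and `br (ad e m) (wd [p]) = ad e (m ++ [p])`
(`brL` is linear); by induction for `br e (wd [p])` the second term is a combination of
`ad (br e (wd [p])) m = ad e (p :: m)`, `m ~ l0`. -/
def S_BR : Prop := ∀ (d : ℕ) (e : A d) (l : List (Pt d)), l ≠ [] →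
  br e (lb l) ∈ Submodule.span ℚ {x | ∃ m : List (Pt d), m.Perm l ∧ x = ad e m}

/-- LIE (0.3 h, may use `S_BR`). Proof: `S_BR` with `e = lb l`: `ad (lb l) m = lb (l ++ m)`
(`lb_append`) for `m ~ l'`. -/
def S_LIE : Prop := ∀ (d : ℕ) (l l' : List (Pt d)), l ≠ [] → l' ≠ [] →
  br (lb l) (lb l') ∈ Submodule.span ℚ {x | ∃ m : List (Pt d), m.Perm (l ++ l') ∧ x = lb m}

/-- FIX (0.4 h, may use `S_BR`): a bracket is a combination of brackets starting with the letter
`a`. Proof: `l = l1 ++ a :: l2`; if `l1 = []` trivial; else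
`lb l = ad (br (lb l1) (wd [a])) l2 = - ad (br (wd [a]) (lb l1)) l2`, and by `S_BR`
`br (wd [a]) (lb l1)` is a combination of `ad (wd [a]) m`, `m ~ l1`, and
`ad (ad (wd [a]) m) l2 = lb (a :: (m ++ l2))`. -/
def S_FIX : Prop := ∀ (d : ℕ) (l : List (Pt d)) (a : Pt d), a ∈ l →
  lb l ∈ Submodule.span ℚ {x | ∃ m : List (Pt d), (a :: m).Perm l ∧ x = lb (a :: m)}

/-- MIX (0.7 h, may use `S_BR`, `S_FIX`). Proof: by `S_FIX` it is enough to treat
`lb (a :: m)` with `a = (y', true)` a tail and `m` containing a head. Write `m = l1 ++ b :: l2`,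
`b` the first head of `m`. Then `lb (a :: m) = ad (br (lb (a :: l1)) (wd [b])) l2
= - ad (br (wd [b]) (lb (a :: l1))) l2`, and by `S_BR` `br (wd [b]) (lb (a :: l1))` is a combination
of `ad (wd [b]) (c :: s)` with `c :: s ~ a :: l1`, so `c` is a tail, and
`ad (ad (wd [b]) (c :: s)) l2 = ad (br (wd [b]) (wd [c])) (s ++ l2)`. -/
def S_MIX : Prop := ∀ (d : ℕ) (z : List (Pt d)), (∃ y, (y, true) ∈ z) → (∃ x, (x, false) ∈ z) →
  lb z ∈ Submodule.span ℚ {v | ∃ (x y : Fin d) (m : List (Pt d)),
    ((x, false) :: (y, true) :: m).Perm z ∧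
    v = ad (br (wd [(x, false)]) (wd [(y, true)])) m}

/-- SUB (0.8 h, may use `S_LIE`). Substitution of `[a, b]` or `[b, a]` for a letter `a` of a block
word. Proof: exactly one block `l` contains `a`: `W = W1 ++ l :: W2`, `l = l1 ++ a :: l2`, and `sb`
fixes `val W1`, `val W2` (`sb_val`) and the letters of `l1`, `l2`. If `l1 = []`:
`sb (lb l) = ad (br (wd [a]) (wd [b])) l2 = lb (a :: b :: l2)`. Else
`sb (lb l) = ad (br (lb l1) (lb [a, b])) l2` (`sb_ad`, `sb_br`, `sb_lb`), and by `S_LIE` this is a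
combination of `lb (m ++ l2)`, `m ~ l1 ++ [a, b]`. The new block has the letters `b :: l`, it is
pure because `b` has the type of `a`. The same for `[b, a]`. -/
def S_SUB : Prop := ∀ (d : ℕ) (W : List (List (Pt d))) (a b : Pt d), (∀ l ∈ W, Pur l) →
  W.flatten.count a = 1 → b.2 = a.2 →
  sb a (br (wd [a]) (wd [b])) (val W) ∈ Submodule.span ℚ {v | ∃ W' : List (List (Pt d)),
    (∀ l ∈ W', Pur l) ∧ W'.length = W.length ∧ W'.flatten.Perm (b :: W.flatten) ∧ v = val W'} ∧
  sb a (br (wd [b]) (wd [a])) (val W) ∈ Submodule.span ℚ {v | ∃ W' : List (List (Pt d)),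
    (∀ l ∈ W', Pur l) ∧ W'.length = W.length ∧ W'.flatten.Perm (b :: W.flatten) ∧ v = val W'}

/-- LBW (0.3 h): a bracket is a combination of the words in its letters. Proof: induction from the
right. -/
def S_LBW : Prop := ∀ (d : ℕ) (l : List (Pt d)),
  lb l ∈ Submodule.span ℚ {x | ∃ m : List (Pt d), m.Perm l ∧ x = wd m}

/-! ### 6T -/

/-- MIXED (1.5 h, may use `S_MIX`, `S_SUB`). The heart: a bracket `lb z` of letters of different
arrows inside a block word counts as one block modulo 6T. Proof by strong induction on `z.length`,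
for all `W`, `W'`. If `z` is pure, `W ++ z :: W'` is a block word with `|W| + |W'| + 1` blocks
(`mem_F`). Otherwise `z` has a tail and a head; by `S_MIX` (and linearity of
`x ↦ ev (val W * x * val W')`) it is enough to treat
`lb z := ad (br (wd [h_x]) (wd [t_y])) m`, `h_x = (x, false)`, `t_y = (y, true)`,
`h_x :: t_y :: m ~ z`; here `x ≠ y` (hypothesis on `z`). Claim: for ALL `c c' : A d`,
`ev (c * ad (br h_x t_y) m * c') + ev (sb t_x [t_x,t_y] (c * ad h_x m * c')) +
ev (sb h_y [h_x,h_y] (c * ad t_y m * c')) ∈ N2 d`: for `m = []` this is the definition of `N2`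
(`six`); for `m = p :: m'` use induction on `m` in the form: the set of linear maps
`L : A d → A d` with `ev (L (br h_x t_y)) + ev (sb t_x .. (L h_x)) + ev (sb h_y .. (L t_y)) ∈ N2`
contains `e ↦ c * e * c'` and is closed under linear combinations, and `e ↦ c * ad e m * c'` is a
linear combination of maps `e ↦ c1 * e * c2` (induction on `m`, as
`c * br e p * c' = c * e * (p * c') - (c * p) * e * c'`). Apply it with `c = val W`,
`c' = val W'`. Since `t_x`, `h_y` are not in `z` (hypothesis on `z`), `t_x` lies exactly once in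
`W.flatten ++ W'.flatten`, and
`sb t_x [t_x,t_y] (val W * ad h_x m * val W') = sb (val W) * lb (h_x :: m) * sb (val W')`
(`sb_ad`), and by `S_SUB` / `sb_val` it is a combination of `val W1 * lb (h_x :: m) * val W1'`,
pure blocks, the same numbers of blocks, `W1.flatten ++ W1'.flatten ~ t_y :: W.flatten ++
W'.flatten`; so induction applies to `h_x :: m` (shorter than `z`, still no common arrow). The same
for the third term: `lb (t_y :: m)` and the new letter `h_x` in the block of `h_y`. -/
def S_MIXED : Prop := ∀ (d : ℕ) (W W' : List (List (Pt d))) (z : List (Pt d)),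
  (∀ l ∈ W, Pur l) → (∀ l ∈ W', Pur l) → z ≠ [] → IsD (W.flatten ++ z ++ W'.flatten) →
  (∀ i, ¬ ((i, true) ∈ z ∧ (i, false) ∈ z)) →
  ev (val W * lb z * val W') ∈ N2 d ⊔ F d (W.length + W'.length + 1)

/-- SWAP (0.4 h, may use `S_LIE`). Proof: the difference is
`ev (val W * br (lb P) (lb Q) * val W')`, and by `S_LIE` `br (lb P) (lb Q)` is a combination of
`lb m`, `m ~ P ++ Q`, a pure block: `W ++ m :: W'` is a block word with one block less. -/
def S_SWAP : Prop := ∀ (d : ℕ) (W W' : List (List (Pt d))) (P Q : List (Pt d)),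
  BW (W ++ P :: Q :: W') → (∀ p ∈ P, ∀ q ∈ Q, p.2 = q.2) →
  ev (val (W ++ P :: Q :: W')) - ev (val (W ++ Q :: P :: W')) ∈ F d (W.length + W'.length + 1)

/-- DN2 (0.5 h, may use `S_LIE`, `S_MIXED`). Proof: for a generator the difference is
`ev (val W * br (lb P) (lb Q) * val W')`; by `S_LIE` a combination of `ev (val W * lb m * val W')`,
`m ~ P ++ Q`; apply `S_MIXED` with `z = m` (no arrow has both ends in `m`), and
`|W| + |W'| + 1 ≤ n` (`F_mono`). -/
def S_DN2 : Prop := ∀ d n : ℕ, DD d (n + 1) ≤ N2 d ⊔ F d n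

/-- DN1 (0.8 h, may use `S_LBW`). Proof: `DD d n ≤ F d n`: both words are block words with at most
`n` blocks (`BW_perm`). `DD d n ≤ N1 d`: by `S_LBW` and linearity it is enough that
`ev (c * (wd u * wd w - wd w * wd u) * c') ∈ N1 d` for lists `u` of tails and `w` of heads without
common arrow and `c`, `c'` words (by `span_wd` and linearity): move the letters one by one. -/
def S_DN1 : Prop := ∀ d n : ℕ, DD d n ≤ N1 d ⊓ F d n

/-- RW (1.5 h). Proof: `RN d ≤ relI d` is part of `S_INVAR`; here `N2 d ≤ relI d`. By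
`six`-bilinearity and `span_wd` take `c = wd u`, `c' = wd w`. All words which occur in
`six (wd u) (wd w) x y` are rearrangements of `u ++ h_x :: t_y :: w` or contain some letter twice
or miss one (if `t_x` resp. `h_y` does not occur exactly once in `u ++ w`); so if
`u ++ h_x :: t_y :: w` is not a diagram, `six = 0`. Otherwise `t_x` and `h_y` occur once in
`u ++ w`. Six cases: the relative position of `t_x` (arc 0), the place between `u` and `w` (arc 1)
and `h_y` (arc 2). E.g. `u = u0 ++ t_x :: u1 ++ h_y :: u2`: with `τ = (0, 2, 1)` and the words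
`u0, u1, u2, w` one has `pr _ τ x y 0 1 0 2 = u0 t_x t_y u1 h_y u2 h_x w`, and so on:
`sixT` differs from `six (wd u) (wd w) x y` only by the names `x`, `y` in its three negative terms
(there the first arrow is called `x`): `el v - el (ren (swap x y) v) ∈ relI d`. -/
def S_RW : Prop := ∀ d : ℕ, N2 d ≤ relI d

/-- INVAR (0.8 h). Everything is invariant under the renamings. Proof: `act σ (ev (wd w)) =
ev (wd (ren σ w))`; define the algebra map `rho σ : A d → A d`, `wd w ↦ wd (ren σ w)`, which
satisfies `ev ∘ rho σ = act σ ∘ ev`, `rho σ (lb l) = lb (ren σ l)`, `rho σ (val W) =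
val (W.map (ren σ))`, `rho σ (sb a e z) = sb (σ a) (rho σ e) (rho σ z)` (algebra maps which agree on
letters). `RN d ≤ relI d`: `w - act σ w` is linear in `w`, take `w = el v` (`span_el`). -/
def S_INVAR : Prop := ∀ (d : ℕ), (∀ σ : Equiv.Perm (Fin d),
  (∀ n, (F d n).map (act σ) ≤ F d n) ∧ (N1 d).map (act σ) ≤ N1 d ∧ (N2 d).map (act σ) ≤ N2 d) ∧
  RN d ≤ relI d

/-- FTOP (0.2 h). Proof: `el w = ev (wd w) = ev (val (w.map fun p => [p]))` (`val_singles`);
if `w` is a diagram this is a block word with `2 d` blocks (`isD_length`). For `d ≥ 1` no block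
word is empty. -/
def S_FTOP : Prop := ∀ d : ℕ, F d (2 * d) = ⊤ ∧ (1 ≤ d → F d 0 = ⊥)

/-! ### The classes of block words -/

/-- TML (0.8 h). Two orders of the same finite set which agree on all pairs that do not commute are
connected by interchanges of neighbours which commute. Proof: induction on the length of `L'`, for
all `L`. `L' = a :: M'`. `L = u ++ a :: w`; every `b ∈ u` comes before `a` in `L` and after `a` in
`L'`, so `b` and `a` commute: move `a` to the front; then apply the induction hypothesis to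
`u ++ w` and `M'`. -/
def S_TML : Prop := ∀ (α : Type) [DecidableEq α] (r : α → α → Prop) (L L' : List α),
  (∀ a b, r a b → r b a) → L.Nodup → L.Perm L' →
  (∀ a ∈ L, ∀ b ∈ L, a ≠ b → ¬ r a b →
    (L.idxOf a < L.idxOf b ↔ L'.idxOf a < L'.idxOf b)) →
  Relation.ReflTransGen (fun M M' => ∃ (u w : List α) (a b : α), r a b ∧
    M = u ++ a :: b :: w ∧ M' = u ++ b :: a :: w) L L'

/-- SPAN (1.5 h, may use `S_FIX`, `S_SWAP`, `S_TML`, and the finiteness in `S_CLS`). Proof: choose
for each class `c ∈ Cls d` with `n + 1` blocks a block word `W_c`, and let `S` be the set of the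
`ev (val W_c)`. Let `W` be a block word, `|W| ≤ n + 1`. If `|W| ≤ n`, `ev (val W) ∈ F d n`. Else:
(a) by `S_FIX` applied in each block with its smallest letter (the names in a block are different,
because it is pure and `W.flatten` is a diagram) `val W` is a combination of values of block words
`W'` with `MinFirst W'`, `|W'| = |W|`. (b) If `MinFirst W`, let `c = (↑W, dirs W.flatten)`; then
`W_c` is a rearrangement of `W` with the same directions. Let `r P Q` mean: all letters of `P` and
`Q` have the same type, or no arrow has an end in `P` and an end in `Q`. If two different blocks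
`P`, `Q` do not commute, they have different type and a common arrow `i`, and the order of `P` and
`Q` is read off from the direction of `i`. So `S_TML` connects `W_c` with `W` by interchanges; each
one changes `ev (val _)` by an element of `F d n` (`S_SWAP`) or of `DD d (n + 1)` (up to sign). -/
def S_SPAN : Prop := ∀ d n : ℕ, ∃ S : Finset (V d),
  S.card ≤ {c ∈ Cls d | Multiset.card c.1 = n + 1}.ncard ∧
  F d (n + 1) ≤ F d n ⊔ DD d (n + 1) ⊔ Submodule.span ℚ (S : Set (V d))

/-- CLS (1.5 h). Proof: to `c = (M, ε) ∈ Cls d` attach `(σ, ε)`, where `σ b` is the product over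
the blocks `l ∈ M` of type `b` of the cycles `(l.map Prod.fst).formPerm` (disjoint; or: `σ b i` is
the name following `i` cyclically in its block). `Cycc σ ε`: take a block word `W` of the class and
`f p` = index of the block of `p` in `W`; it is constant on blocks, and
`dirs W.flatten i = true` iff the block of `(i, true)` comes before the block of `(i, false)`
(the two blocks are different because blocks are pure). Injective: a block starting with its
smallest name `a` is recovered from `σ b` as the list `a, σ b a, (σ b)^2 a, …` of its cycle, so `M`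
is determined by `σ` (the blocks of type `b` correspond to the cycles, fixed points included). The
target is finite, so `Cls d` is finite. -/
def S_CLS : Prop := ∀ d : ℕ, (Cls d).Finite ∧
  (Cls d).ncard ≤ Nat.card {p : (Bool → Equiv.Perm (Fin d)) × (Fin d → Bool) // Cycc p.1 p.2}

/-- The number of orders (given by their ranks) of `n` points `φ i` of a finite set compatible with
strict inequalities `D` and equalities `E`. -/
noncomputable def No {X : Type} {n : ℕ} (φ : Fin n → X) (D E : X → X → Prop) : ℕ :=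
  Nat.card {σ : Equiv.Perm (Fin n) // ∃ f : X → ℕ, (∀ a b, D a b → f a < f b) ∧
    (∀ a b, E a b → f a = f b) ∧ ∀ i j, σ i < σ j → f (φ i) < f (φ j)}

/-- The number of permutations of `n` points whose cycles can be collapsed compatibly with `D`
and `E`. -/
noncomputable def Nc {X : Type} {n : ℕ} (φ : Fin n → X) (D E : X → X → Prop) : ℕ :=
  Nat.card {σ : Equiv.Perm (Fin n) // ∃ f : X → ℕ, (∀ a b, D a b → f a < f b) ∧
    (∀ a b, E a b → f a = f b) ∧ ∀ i, f (φ (σ i)) = f (φ i)}

/-- TLC (0.8 h). Proof: `Equiv.Perm.decomposeFin`: `σ ↔ (p, e)`, `σ 0 = p`,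
`σ x.succ = swap 0 p (e x).succ`. For `p = 0` the condition `f (φ (σ i)) = f (φ i)` for all `i`
says `f (φ (e x).succ) = f (φ x.succ)` for all `x`. For `p = j.succ` it says this and
`f (φ 0) = f (φ j.succ)`: the cycle of `j.succ` also contains `0`. -/
def S_TLC : Prop := ∀ (X : Type) (n : ℕ) (φ : Fin (n + 1) → X) (D E : X → X → Prop),
  Nc φ D E = Nc (fun i : Fin n => φ i.succ) D E + ∑ j : Fin n,
    Nc (fun i : Fin n => φ i.succ) D (fun a b => E a b ∨ (a = φ 0 ∧ b = φ j.succ))

/-- TLO (2 h). Proof: ranks `σ ↔ (k, τ)`, `k = σ 0`, `σ i.succ = k.succAbove (τ i)`. Fix `τ`,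
write `ψ i = φ i.succ`, and call `T(f)`: `f` satisfies `D`, `E`, and `τ i < τ j → f (ψ i) <
f (ψ j)`. If no `f` has `T(f)`, `τ` contributes `0` everywhere. Otherwise fix `f0` with `T(f0)`.
Call a set `U ⊆ X` up-closed if `a ∈ U, D a b → b ∈ U`; `E a b → (a ∈ U ↔ b ∈ U)`;
`ψ i ∈ U, τ i < τ j → ψ j ∈ U`; down-closed sets are the complements. Let `U(a)` (`L(a)`) be the
smallest up-closed (down-closed) set containing `a`; so `b ∈ U(a) ↔ a ∈ L(b)`, and every `f` with
`T(f)` has `f b ≥ f a` for `b ∈ U(a)`, and `f b > f a` if moreover `b` is not `E`-equivalent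
(`EqvGen E`) to `a`; the points `ψ i` are not equivalent to `φ 0` (hypothesis). Let
`a = #{i | ψ i ∈ L(φ 0)}`, `b = #{i | ψ i ∉ U(φ 0)}`; then `a ≤ b ≤ n`,
`ψ i ∈ L(φ 0) ↔ τ i < a`, `ψ i ∈ U(φ 0) ↔ b ≤ τ i` (the two sets are segments and disjoint, by
`f0`). Claim 1: `(k, τ)` is compatible iff `a ≤ k ≤ b` (`b - a + 1` values). Only if: clear from
the strict inequalities. If: `U1` = smallest up-closed set containing `φ 0` and all `ψ i` with
`τ i ≥ k`, `U2` = smallest one containing all `ψ i` with `τ i ≥ k`; `ψ j ∉ U1` for `τ j < k`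
(by `k ≤ b` and `f0`), `φ 0 ∉ U2` (by `a ≤ k`); take `f = f0 + M [x ∈ U1] + M [x ∈ U2]` with `M`
bigger than all values of `f0`. Claim 2: `τ` is compatible with the extra equality
`f (φ 0) = f (ψ j)` iff `a ≤ τ j < b` (`b - a` values). Only if: clear. If: if
`f0 (φ 0) ≤ f0 (ψ j)` take `f = f0 + δ [x ∈ U(φ 0)]`, `δ = f0 (ψ j) - f0 (φ 0)`, otherwise
`f = f0 + δ [x ∈ U(ψ j)]`, `δ = f0 (φ 0) - f0 (ψ j)`. So `τ` contributes `b - a + 1` on the left
and `1 + (b - a)` on the right. -/
def S_TLO : Prop := ∀ (X : Type) [Finite X] (n : ℕ) (φ : Fin (n + 1) → X) (D E : X → X → Prop),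
  (∀ i : Fin n, ¬ Relation.EqvGen E (φ 0) (φ i.succ)) →
  No φ D E = No (fun i : Fin n => φ i.succ) D E + ∑ j : Fin n,
    No (fun i : Fin n => φ i.succ) D (fun a b => E a b ∨ (a = φ 0 ∧ b = φ j.succ))

/-- TL (0.7 h, may use `S_TLC`, `S_TLO`). Proof: induction on `n` (for all `φ`, `D`, `E`); for
`n = 0` both conditions agree. The hypothesis is inherited: if `ψ i`, `ψ i'` (`i ≠ i'`) are
equivalent for `E ∪ {(φ 0, φ j.succ)}` then they are equivalent for `E`, or one of them is
`E`-equivalent to `φ 0` (induction over `EqvGen`). -/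
def S_TL : Prop := ∀ (X : Type) [Finite X] (n : ℕ) (φ : Fin n → X) (D E : X → X → Prop),
  (∀ i j, i ≠ j → ¬ Relation.EqvGen E (φ i) (φ j)) → No φ D E = Nc φ D E

/-- TLL (0.8 h, may use `S_TL`). Proof: fix `ε` and `σ true`; `S_TL` with `X = Pt d`,
`φ i = (i, false)`, `E` empty, `D` = the inequalities of `Dir ε` and of the order `σ true` on the
tails, replaces orders of the heads by permutations of the heads. Then fix `ε` and `σ false`, and
use `S_TL` with `φ i = (i, true)`, `D` = the inequalities of `Dir ε`, `E` = the equalities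
`f (σ false i, false) = f (i, false)` (tails are never equivalent to tails). Sum over the fixed
data. -/
def S_TLL : Prop := ∀ d : ℕ,
  Nat.card {p : (Bool → Equiv.Perm (Fin d)) × (Fin d → Bool) // Ordd p.1 p.2} =
  Nat.card {p : (Bool → Equiv.Perm (Fin d)) × (Fin d → Bool) // Cycc p.1 p.2}

/-- INV (1.5 h). Proof: to a diagram `w` attach `inv w = (σ, ε)`, `σ b i` = number of `j` such that
`(j, b)` comes before `(i, b)` in `w`, `ε = dirs w`. It does not change if two neighbours
`(i, b)`, `(j, !b)`, `i ≠ j`, are interchanged. So the linear map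
`V d → ((Bool → Perm) × (Fin d → Bool) →₀ ℚ)`, `el w ↦ single (inv w) 1`, kills `N1 d`, and its
range contains `single p 1` for all `p = (σ, ε)` with `Ordd`: given `f`, sort the endpoints by
`g (i, b) = 2 f (i, b) + (if b then 1 else 0)` (injective) to get the diagram `w` with
`inv w = (σ, ε)`. Count dimensions. -/
def S_INV : Prop := ∀ d : ℕ,
  Nat.card {p : (Bool → Equiv.Perm (Fin d)) × (Fin d → Bool) // Ordd p.1 p.2} +
    Module.finrank ℚ (N1 d) ≤ Module.finrank ℚ (V d)

/-! ### Linear algebra -/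

/-- STR (1 h). Proof: let `B n = F n ⊔ (N ⊓ F (n+1))`, `A n = F n ⊔ D (n+1) ≤ B n`,
`G n = F n ⊔ N`. By `finrank (S ⊔ T) + finrank (S ⊓ T) = finrank S + finrank T` one gets
`finrank (G (n+1)) - finrank (G n) = finrank (F (n+1)) - finrank (B n)` (use
`F n ⊓ (N ⊓ F (n+1)) = F n ⊓ N`). Summing over `n < m` (`G 0 = N`, `G m = ⊤`):
`finrank V - finrank N = ∑ (finrank (F (n+1)) - finrank (B n)) ≤ ∑ (finrank (F (n+1)) -
finrank (A n)) ≤ ∑ b n ≤ finrank V - finrank N`. So all inequalities are equalities,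
`finrank (A n) = finrank (B n)`, `A n = B n`. -/
def S_STR : Prop := ∀ (M : Type) [AddCommGroup M] [Module ℚ M] [FiniteDimensional ℚ M] (m : ℕ)
  (F D : ℕ → Submodule ℚ M) (N : Submodule ℚ M) (b : ℕ → ℕ), Monotone F → F 0 = ⊥ → F m = ⊤ →
  (∀ n < m, D (n + 1) ≤ N ⊓ F (n + 1)) →
  (∀ n < m, Module.finrank ℚ (F (n + 1)) ≤
    Module.finrank ℚ (F n ⊔ D (n + 1) : Submodule ℚ M) + b n) →
  (∑ n ∈ Finset.range m, b n) + Module.finrank ℚ N ≤ Module.finrank ℚ M →
  ∀ n < m, N ⊓ F (n + 1) ≤ F n ⊔ D (n + 1)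

/-- CMP (1.3 h). Proof: let `e = (1/|G|) ∑ ρ g`, a projection onto the invariants with kernel
`R = span {v - ρ g v}`. Invariant submodules `N` satisfy `e N ≤ N`, and
`M/(N ⊔ R) ≃ e M / e N`, so `finrank (M/(N ⊔ R)) = finrank (e M) - finrank (e N)`; it is enough
that `finrank (e N1) ≤ finrank (e N2)`. By induction on `n`:
`finrank (e N1 ⊓ F n) ≤ finrank (e N2 ⊓ F n)`. Step: the image of `e N1 ⊓ F (n+1)` in `M / F n` is
contained in the image of `e N2 ⊓ F (n+1)`: for `x ∈ e N1 ⊓ F (n+1)` (so `e x = x ∈ N1`) write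
`x = y + z`, `y ∈ N2`, `z ∈ F n`; then `x = e y + e z`, `e z ∈ F n`, and
`e y = x - e z ∈ e N2 ⊓ F (n+1)`. -/
def S_CMP : Prop := ∀ (M : Type) [AddCommGroup M] [Module ℚ M] [FiniteDimensional ℚ M]
  (G : Type) [Group G] [Fintype G] (ρ : G →* (M →ₗ[ℚ] M)) (m : ℕ) (F : ℕ → Submodule ℚ M)
  (N N' : Submodule ℚ M), Monotone F → F 0 = ⊥ → F m = ⊤ →
  (∀ g n, (F n).map (ρ g) ≤ F n) → (∀ g, N.map (ρ g) ≤ N) → (∀ g, N'.map (ρ g) ≤ N') →
  (∀ n < m, N ⊓ F (n + 1) ≤ N' ⊔ F n) →
  Module.finrank ℚ (M ⧸ (N' ⊔ Submodule.span ℚ {v | ∃ (g : G) (w : M), v = w - ρ g w})) ≤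
  Module.finrank ℚ (M ⧸ (N ⊔ Submodule.span ℚ {v | ∃ (g : G) (w : M), v = w - ρ g w}))

/-! ### Canonical words -/

/-- Canonical words: the tails come in the order of their names, and a head which is immediately
followed by a tail belongs to the same arrow. -/
def Can {d : ℕ} (w : List (Pt d)) : Prop :=
  IsD w ∧ (∀ i j : Fin d, i < j → w.idxOf (i, true) < w.idxOf (j, true)) ∧
    ∀ (u v : List (Pt d)) (i j : Fin d), w = u ++ (i, false) :: (j, true) :: v → i = j

/-- CAN1 (0.9 h). Proof: rename the arrows so that the tails come in order (`RN`); if a head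
`(i, false)` is followed by a tail `(j, true)`, `i ≠ j`, interchange them (`N1`): the tails stay in
order and the number of pairs (head before tail) decreases. -/
def S_CAN1 : Prop := ∀ (d : ℕ) (w : List (Pt d)),
  el w ∈ N1 d ⊔ RN d ⊔ Submodule.span ℚ {v | ∃ u : List (Pt d), Can u ∧ v = el u}

/-- CAN2 (2 h). Proof: for a canonical word `w` let `v k` be the name of the `k`-th head, `S` the
set of the `i` such that `(i, true)` is immediately preceded by `(i, false)`, and
`T = {k | v k ∈ S}`; then `v` maps `Tᶜ` bijectively to `Sᶜ`. The word is determined by `S`, `T` and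
`v|Tᶜ`: on `T` the map `v` is the increasing bijection onto `S` (for `i < j` in `S`, `(i, false)`
comes immediately before `(i, true)`, before `(j, false)`), so `v` is known; the number `c i` of
heads before `(i, true)` is `v⁻¹ i + 1` for `i ∈ S`, and for `i ∉ S` it is `c (i - 1)` (`0` if
`i = 0`), because `(i, true)` is preceded by a tail or by nothing; and a word with the tails in
order is determined by `v` and `c`. The number of triples
`(S, T, bijection Tᶜ ≃ Sᶜ)` is `∑_s C(d,s)^2 (d - s)! = bd d` (`Finset.sum` over pairs of subsets,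
`Fintype.card_equiv`, then `k = d - s`). -/
def S_CAN2 : Prop := ∀ d : ℕ, {w : List (Pt d) | Can w}.ncard ≤ bd d

/-- CAN (0.3 h, may use `S_CAN1`, `S_CAN2`). -/
def S_CAN : Prop := ∀ d : ℕ, Module.finrank ℚ (V d ⧸ (N1 d ⊔ RN d)) ≤ bd d

/-! ### Assembly and numbers -/

/-- MAIN (0.8 h; may use all `S_XXX`): see the header. `d = 0`: `finrank_AI_le`. -/
def S_MAIN : Prop := ∀ d : ℕ, Module.finrank ℚ (AI d) ≤ bd d

/-- NUM (0.5 h). Proof: `C(d,k)^2 k! = C(d,d-k)^2 k!`, with `j = d - k`:
`C(d,j)^2 (d-j)! = d! C(d,j) / j! ≤ d! d^j / (j!)^2 = d! ((sqrt d)^j / j!)^2`, and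
`∑ a_j^2 ≤ (∑ a_j)^2 ≤ exp (sqrt d)^2` (`Real.sum_le_exp_of_nonneg`). -/
def S_NUM : Prop := ∀ d : ℕ, (bd d : ℝ) ≤ d.factorial * Real.exp (2 * Real.sqrt d)

/-- LIM (0.5 h, may use `S_NUM`). Proof: `1 ≤ a d / d! ≤ exp (2 sqrt d)`, so
`1 ≤ (a d / d!)^(1/d) ≤ exp (2 / sqrt d)`, and
`0 ≤ log (a d) - log d! ≤ 2 sqrt d`. -/
def S_LIM : Prop := ∀ a : ℕ → ℕ, (∀ d, d.factorial ≤ a d) → (∀ d, a d ≤ bd d) →
  Filter.Tendsto (fun d : ℕ => ((a d : ℝ) / d.factorial) ^ ((1 : ℝ) / d)) Filter.atTop (nhds 1) ∧
  ∀ d : ℕ, |Real.log (a d) - Real.log d.factorial| ≤ 2 * Real.sqrt d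

end Pool.Agent.Helper81.AD2
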